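import Pool.Agent.Q206.UD.Pair

/-!
# Closure under small slack gives closure under Turing equivalence with linear use
-/

set_option autoImplicit false

namespace Pool.Agent.Q206.UD

open Encodable
open Nat.Partrec (Code)
open Pool.Agent.H685R3 Pool.Agent.Q202.IDet Pool.Agent.Helper227 Pool.Agent.Y588.TC
  Pool.Agent.Q202.IDet2

/-- One sequence on the positions of parity `r` and one on the others. -/
def two (r : ℕ) (v w : ℕ → Bool) (i : ℕ) : Bool := if i % 2 = r then v (i / 2) else w (i / 2)

theorem hist_map {u x : ℕ → Bool} {p : ℕ → ℕ} (hx : ∀ i, x i = u (p i)) {m m' : ℕ}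
    (h : ∀ j ∈ List.range m, p j < (hist u m').length) :
    (List.range m).map (fun j => (hist u m').getD (p j) false) = hist x m := by
  refine List.map_congr_left fun j hj => ?_
  have h1 := h j hj
  rw [hist_length] at h1
  rw [hist_getD h1, hx]

theorem use_two (r : ℕ) {u x y : ℕ → Bool} {p a b : ℕ → ℕ} (hp : Primrec p) (ha : Primrec a)
    (hb : Primrec b) (hx : ∀ i, x i = u (p i)) {c : Code} {h : ℕ → ℕ}
    (hc : ∀ n, ∃ m ≤ h n, encode (hist y n) ∈ c.eval (encode (n, hist x m)))
    (hc' : ∀ n m s, s ∈ c.eval (encode (n, hist x m)) → s = encode (hist y n)) {N : ℕ}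
    (h1 : ∀ n, N ≤ n → ∀ i < n, i % 2 = r → p (a (i / 2)) < n)
    (h2 : ∀ n, N ≤ n → ∀ i < n, i % 2 ≠ r → ∀ m ≤ h (b (i / 2) + 1), ∀ j < m, p j < n) :
    UseLE (fun _ => 0) (two r (x ∘ a) (y ∘ b)) u := by
  classical
  obtain ⟨w, hw⟩ : ∃ w, w = two r (x ∘ a) (y ∘ b) := ⟨_, rfl⟩
  rw [← hw]
  obtain ⟨T, hT⟩ : ∃ T, T = hist w N := ⟨_, rfl⟩
  let E : List Bool × (ℕ × List Bool) → Prop := fun z =>
    (z.2.1 < N ∧ z.2.2 = T.take z.2.1) ∨ (N ≤ z.2.1 ∧ z.2.2.length = z.2.1 ∧ ∀ i < z.2.1,
      (i % 2 = r ∧ p (a (i / 2)) < z.1.length ∧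
        z.2.2.getD i false = z.1.getD (p (a (i / 2))) false) ∨
      (i % 2 ≠ r ∧ ∃ m : ℕ, ∃ R : List Bool, (∀ j ∈ List.range m, p j < z.1.length) ∧
        encode R ∈ c.eval (encode (b (i / 2) + 1,
          (List.range m).map fun j => z.1.getD (p j) false)) ∧
        z.2.2.getD i false = R.getD (b (i / 2)) false))
  have hE : S1 E := by
    refine S1.or (S1.of_prim (PrimrecPred.and ?_ ?_)) (S1.and (S1.of_prim ?_) (S1.and
      (S1.of_prim ?_) ?_))
    · exact Primrec.nat_lt.comp (Primrec.fst.comp Primrec.snd) (Primrec.const N)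
    · exact Primrec.eq.comp (Primrec.snd.comp Primrec.snd) (Primrec.list_take.comp
        (Primrec.fst.comp Primrec.snd) (Primrec.const T))
    · exact Primrec.nat_le.comp (Primrec.const N) (Primrec.fst.comp Primrec.snd)
    · exact Primrec.eq.comp (Primrec.list_length.comp (Primrec.snd.comp Primrec.snd))
        (Primrec.fst.comp Primrec.snd)
    · refine S1.all_lt (p := fun (z : List Bool × (ℕ × List Bool)) (i : ℕ) =>
        (i % 2 = r ∧ p (a (i / 2)) < z.1.length ∧
          z.2.2.getD i false = z.1.getD (p (a (i / 2))) false) ∨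
        (i % 2 ≠ r ∧ ∃ m : ℕ, ∃ R : List Bool, (∀ j ∈ List.range m, p j < z.1.length) ∧
          encode R ∈ c.eval (encode (b (i / 2) + 1,
            (List.range m).map fun j => z.1.getD (p j) false)) ∧
          z.2.2.getD i false = R.getD (b (i / 2)) false)) (f := fun z => z.2.1) ?_
        (Primrec.fst.comp Primrec.snd)
      have e1 : PrimrecPred fun z : (List Bool × (ℕ × List Bool)) × ℕ => z.2 % 2 = r :=
        Primrec.eq.comp (Primrec.nat_mod.comp Primrec.snd (Primrec.const 2)) (Primrec.const r)
      have e2 : Primrec fun z : (List Bool × (ℕ × List Bool)) × ℕ => z.2 / 2 :=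
        Primrec.nat_div.comp Primrec.snd (Primrec.const 2)
      refine S1.or (S1.of_prim (PrimrecPred.and e1 (PrimrecPred.and ?_ ?_)))
        (S1.and (S1.of_prim e1.not) (S1.ex (p := fun (z : (List Bool × (ℕ × List Bool)) × ℕ)
          (m : ℕ) => ∃ R : List Bool, (∀ j ∈ List.range m, p j < z.1.1.length) ∧
          encode R ∈ c.eval (encode (b (z.2 / 2) + 1,
            (List.range m).map fun j => z.1.1.getD (p j) false)) ∧
          z.1.2.2.getD z.2 false = R.getD (b (z.2 / 2)) false) (S1.ex (p := fun
            (z : ((List Bool × (ℕ × List Bool)) × ℕ) × ℕ) (R : List Bool) =>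
            (∀ j ∈ List.range z.2, p j < z.1.1.1.length) ∧
          encode R ∈ c.eval (encode (b (z.1.2 / 2) + 1,
            (List.range z.2).map fun j => z.1.1.1.getD (p j) false)) ∧
          z.1.1.2.2.getD z.1.2 false = R.getD (b (z.1.2 / 2)) false) (S1.and (S1.of_prim ?_)
          (S1.and ?_ (S1.of_prim ?_))))))
      · exact Primrec.nat_lt.comp (hp.comp (ha.comp e2)) (Primrec.list_length.comp
          (Primrec.fst.comp Primrec.fst))
      · exact Primrec.eq.comp ((Primrec.list_getD false).comp
          (Primrec.snd.comp (Primrec.snd.comp Primrec.fst)) Primrec.snd)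
          ((Primrec.list_getD false).comp (Primrec.fst.comp Primrec.fst)
            (hp.comp (ha.comp e2)))
      · exact (prim_all hp).comp (Primrec.pair (Primrec.snd.comp Primrec.fst)
          (Primrec.fst.comp (Primrec.fst.comp (Primrec.fst.comp Primrec.fst))))
      · refine s1_graph.comp (f := fun z : (((List Bool × (ℕ × List Bool)) × ℕ) × ℕ) ×
          List Bool => ((c, encode (b (z.1.1.2 / 2) + 1,
            (List.range z.1.2).map fun j => z.1.1.1.1.getD (p j) false)), encode z.2)) ?_
        refine Primrec.pair (Primrec.pair (Primrec.const c) (Primrec.encode.comp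
          (Primrec.pair (Primrec.succ.comp (hb.comp (e2.comp (Primrec.fst.comp Primrec.fst))))
          (Primrec.list_map (Primrec.list_range.comp (Primrec.snd.comp Primrec.fst)) ?_))))
          (Primrec.encode.comp Primrec.snd)
        exact (Primrec.list_getD false).comp (Primrec.fst.comp (Primrec.fst.comp
          (Primrec.fst.comp (Primrec.fst.comp Primrec.fst)))) (hp.comp Primrec.snd)
      · exact Primrec.eq.comp ((Primrec.list_getD false).comp (Primrec.snd.comp (Primrec.snd.comp
          (Primrec.fst.comp (Primrec.fst.comp Primrec.fst)))) (Primrec.snd.comp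
            (Primrec.fst.comp Primrec.fst))) ((Primrec.list_getD false).comp Primrec.snd
            (hb.comp (e2.comp (Primrec.fst.comp Primrec.fst))))
  obtain ⟨d, hd⟩ := select hE
  have key : ∀ (n m' : ℕ) (R : List Bool), E (hist u m', (n, R)) → R = hist w n := by
    rintro n m' R (⟨h3, h4⟩ | ⟨h3, h4, h5⟩)
    · rw [show R = T.take n from h4, hT]
      exact hist_take _ (le_of_lt h3)
    · simp only at h3 h4 h5
      refine List.ext_getElem (by rw [h4, hist_length]) fun i h6 h7 => ?_
      rw [← List.getD_eq_getElem _ false h6, ← List.getD_eq_getElem _ false h7,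
        hist_getD (by rw [hist_length] at h7; exact h7)]
      rcases h5 i (by omega) with ⟨h8, h9, h10⟩ | ⟨h8, m, R', h9, h10, h11⟩
      · rw [hist_length] at h9
        rw [h10, hist_getD h9, hw]
        unfold two
        rw [if_pos h8, Function.comp_apply, hx]
      · rw [hist_map hx h9] at h10
        have h12 := encode_injective (hc' _ _ _ h10)
        rw [h11, h12, hist_getD (Nat.lt_succ_self _), hw]
        unfold two
        rw [if_neg h8, Function.comp_apply]
  refine ⟨d, fun n => ?_, fun n m s hs => ?_⟩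
  · by_cases hn : n < N
    · have h3 : E (hist u 0, (n, hist w n)) := by
        refine Or.inl ⟨hn, ?_⟩
        rw [hT]
        exact (hist_take _ hn.le).symm
      obtain ⟨R, hR, hR'⟩ := (hd n (hist u 0)).1 ⟨_, h3⟩
      refine ⟨0, Nat.zero_le _, ?_⟩
      rw [key n 0 R hR] at hR'
      exact hR'
    · have h3 : E (hist u n, (n, hist w n)) := by
        refine Or.inr ⟨not_lt.1 hn, hist_length _ _, fun i hi => ?_⟩
        simp only at hi
        simp only [hist_length]
        rw [hist_getD hi, hw]
        by_cases h8 : i % 2 = r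
        · refine Or.inl ⟨h8, h1 n (not_lt.1 hn) i hi h8, ?_⟩
          unfold two
          rw [if_pos h8, Function.comp_apply, hx, hist_getD (h1 n (not_lt.1 hn) i hi h8)]
        · obtain ⟨m, hm, hm'⟩ := hc (b (i / 2) + 1)
          have h9 := h2 n (not_lt.1 hn) i hi h8 m hm
          refine Or.inr ⟨h8, m, hist y (b (i / 2) + 1), fun j hj => h9 j (List.mem_range.1 hj),
            ?_, ?_⟩
          · rw [hist_map hx (fun j hj => by
              rw [hist_length]
              exact h9 j (List.mem_range.1 hj))]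
            exact hm'
          · unfold two
            rw [if_neg h8, Function.comp_apply, hist_getD (Nat.lt_succ_self _)]
      obtain ⟨R, hR, hR'⟩ := (hd n (hist u n)).1 ⟨_, h3⟩
      refine ⟨n, Nat.le_add_right _ _, ?_⟩
      rw [key n n R hR] at hR'
      exact hR'
  · obtain ⟨R, hR, rfl⟩ := (hd n (hist u m)).2 s hs
    rw [key n m R hR]

theorem mux_two (f T : ℕ → ℕ) (r : ℕ) (hr : r = 0) (v : ℕ → Bool) :
    v ∘ mux f T = two r (v ∘ f) (v ∘ T) := by
  funext n
  unfold mux two
  rw [hr]
  by_cases h : n % 2 = 0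
  · rw [Function.comp_apply, if_pos h, if_pos h]
    rfl
  · rw [Function.comp_apply, if_neg h, if_neg h]
    rfl

theorem lin_of_pair {g g' : ℕ → ℕ∞} (hg : Linear g') {A : Set (ℕ → Bool)}
    (hA : ClosedPair g g' A) (C : ℕ) {x y : ℕ → Bool} (hxy : UseLE (fun n => C * n) x y)
    (hyx : UseLE (fun n => C * n) y x) : x ∈ A ↔ y ∈ A := by
  obtain ⟨k, hk⟩ := delay_of_pair hg hA
  obtain ⟨B, hB⟩ : ∃ B, B = k + 1 := ⟨_, rfl⟩
  obtain ⟨M, hM⟩ : ∃ M, M = C + 1 := ⟨_, rfl⟩
  obtain ⟨M', hM'⟩ : ∃ M', M' = 2 * M := ⟨_, rfl⟩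
  obtain ⟨L, hL⟩ : ∃ L, L = 2 * (M' * M) * B := ⟨_, rfl⟩
  have hMpos : 0 < M' * M := Nat.mul_pos (by omega) (by omega)
  have hLB : B ≤ L := by
    rw [hL]
    nlinarith
  -- the step
  have step : ∀ (w u : ℕ → Bool) (d' : ℕ → ℕ) (c0 : ℕ), Primrec d' → (∀ n, d' n ≤ n + c0) →
      w ∘ d' = u → UseLE (fun _ => 0) w u → (w ∈ A ↔ u ∈ A) := by
    intro w u d' c0 hd' hc0 hwu huse
    obtain ⟨K, N, hK⟩ := hg
    refine hA w u ((use_of_useLE huse).mono fun n => by simp) ?_
    let g1 : ℕ → ℕ := fun n => if g' n = ⊤ then n + 1 else (g' n).toNat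
    have h1 : ∀ n, (g1 n : ℕ∞) ≤ g' n := by
      intro n
      by_cases h : g' n = ⊤
      · rw [h]
        exact le_top
      · simp only [g1, if_neg h]
        rw [ENat.natCast_toNat h]
    have h2 : ∀ n, N ≤ n → n < (K + 1) * g1 n := by
      intro n hn
      by_cases h : g' n = ⊤
      · simp only [g1, if_pos h]
        nlinarith
      · simp only [g1, if_neg h]
        have h3 := hK n hn
        rw [← ENat.natCast_toNat h] at h3
        exact_mod_cast h3
    refine (use_of_useLE (g := g1) ?_).mono h1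
    rw [← hwu]
    exact use_of_perm hd' (N := max N (2 * (K + 1) * c0)) (fun n hn i hi =>
      bound_of_near (f := id) (f' := d') (fi := id) h2 (C := 2 * (K + 1) * c0) (fun m => by
        have h5 := Nat.mul_le_mul_left (2 * (K + 1)) (hc0 m)
        have h6 : (2 * (K + 1) + 1) * m = 2 * (K + 1) * m + m := by ring
        have h7 : 2 * (K + 1) * (m + c0) = 2 * (K + 1) * m + 2 * (K + 1) * c0 := by ring
        simp only [id]
        omega) (fun _ => rfl) n hn i hi) _
  obtain ⟨cy, hcy, hcy'⟩ := hyx
  obtain ⟨cx, hcx, hcx'⟩ := hxy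
  -- the sequences
  obtain ⟨u, hu⟩ : ∃ u, u = x ∘ dl (2 * B) B := ⟨_, rfl⟩
  obtain ⟨z, hz⟩ : ∃ z, z = two 0 (x ∘ id) (y ∘ fun i => i / M') := ⟨_, rfl⟩
  obtain ⟨z2, hz2⟩ : ∃ z2, z2 = two 1 (y ∘ fun i => i / M') (x ∘ dl L B) := ⟨_, rfl⟩
  obtain ⟨u2, hu2⟩ : ∃ u2, u2 = (y ∘ fun i => i / M') ∘ dl (2 * B) B := ⟨_, rfl⟩
  have f1 : u ∈ A ↔ x ∈ A := by
    rw [hu]
    refine lin_of_delay hk (primrec_dl _ _) (primrec_ps (2 * B) B) (C := 2 * B + 2)
      (dl_ps (by omega) (by omega)) (fun n => ?_) (fun n => ?_) x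
    · have h1 := dl_two (B := B) n
      have h2 : (2 * B + 2) * n = 2 * B * n + 2 * n := by ring
      have h3 : 0 ≤ 2 * B * n := Nat.zero_le _
      omega
    · have h1 := ps_two (B := B) n
      have h2 : (2 * B + 2) * n = 2 * B * n + 2 * n := by ring
      have h3 : 0 ≤ 2 * B * n := Nat.zero_le _
      omega
  have f2 : z ∈ A ↔ u ∈ A := by
    refine step z u (fun n => 2 * dl (2 * B) B n) (2 * B) (primrec_twice (primrec_dl _ _))
      (fun n => dl_two n) ?_ ?_
    · rw [hz, hu]
      funext n
      simp only [Function.comp_apply, two]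
      rw [if_pos (by omega), show 2 * dl (2 * B) B n / 2 = dl (2 * B) B n by omega]
      rfl
    · rw [hz]
      refine use_two 0 (u := u) (x := x) (y := y) (p := ps (2 * B) B) (a := id)
        (b := fun i => i / M') (primrec_ps _ _) Primrec.id (primrec_half M')
        (fun i => by rw [hu, Function.comp_apply, dl_ps (by omega) (by omega)])
        (c := cy) (h := fun n => n + C * n) hcy hcy' (N := 4 * M) ?_ ?_
      · intro n _ i hi _
        have := ps_two (B := B) (i / 2)
        simp only [id]
        omega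
      · intro n hn i hi _ m hm j hj
        have h1 := ps_two (B := B) j
        have h2 : i / 2 / M' + 1 + C * (i / 2 / M' + 1) = M * (i / 2 / M') + M := by
          rw [hM]
          ring
        have h3 : M' * (i / 2 / M') ≤ i / 2 := Nat.mul_div_le _ _
        have h4 : M' * (i / 2 / M') = 2 * (M * (i / 2 / M')) := by
          rw [hM']
          ring
        omega
  have f3 : z2 ∈ A ↔ z ∈ A := by
    have h1 := rel_mux hk (L := L) (by omega) (fun i => 2 * i) (fun i => 2 * i + 1) (L - B)
      (by omega) z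
    rw [show L - (L - B) = B by omega] at h1
    have h2 : z ∘ mux (fun i => 2 * i) (fun i => 2 * i + 1) = z := by
      funext n
      unfold mux
      simp only [Function.comp_apply]
      split_ifs with h
      · rw [show 2 * (n / 2) = n by omega]
      · rw [show 2 * (n / 2) + 1 = n by omega]
    have h3 : z ∘ mux ((fun i => 2 * i) ∘ dl L B) (fun i => 2 * i + 1) = z2 := by
      rw [hz, hz2]
      funext n
      unfold mux
      simp only [Function.comp_apply]
      by_cases h : n % 2 = 0
      · rw [if_pos h]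
        unfold two
        rw [if_pos (by omega), if_neg (by omega), show 2 * dl L B (n / 2) / 2 = dl L B (n / 2) by
          omega]
        rfl
      · rw [if_neg h]
        unfold two
        rw [if_neg (by omega), if_pos (by omega), show (2 * (n / 2) + 1) / 2 = n / 2 by omega]
    rw [h2, h3] at h1
    exact h1.symm
  have f4 : z2 ∈ A ↔ u2 ∈ A := by
    refine step z2 u2 (fun n => 2 * dl (2 * B) B n + 1) (2 * B + 1)
      (Primrec.succ.comp (primrec_twice (primrec_dl _ _)))
      (fun n => by have := dl_two (B := B) n; omega) ?_ ?_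
    · rw [hz2, hu2]
      funext n
      simp only [Function.comp_apply, two]
      rw [if_pos (by omega), show (2 * dl (2 * B) B n + 1) / 2 = dl (2 * B) B n by omega]
    · rw [hz2]
      refine use_two 1 (u := u2) (x := y) (y := x) (p := fun i => ps (2 * B) B (M' * i))
        (a := fun i => i / M') (b := dl L B)
        ((primrec_ps _ _).comp (Primrec.nat_mul.comp (Primrec.const M') Primrec.id))
        (primrec_half M') (primrec_dl _ _)
        (fun i => by
          rw [hu2]
          simp only [Function.comp_apply]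
          rw [dl_ps (by omega) (by omega), Nat.mul_div_cancel_left _ (by omega)])
        (c := cx) (h := fun n => n + C * n) hcx hcx' (N := 4 * (M' * M) * (B + 1)) ?_ ?_
      · intro n _ i hi _
        have h1 := ps_two (B := B) (M' * (i / 2 / M'))
        have h3 : M' * (i / 2 / M') ≤ i / 2 := Nat.mul_div_le _ _
        omega
      · intro n hn i hi _ m hm j hj
        have h1 := ps_two (B := B) (M' * j)
        have h2 : dl L B (i / 2) + 1 + C * (dl L B (i / 2) + 1) = M * (dl L B (i / 2) + 1) := by
          rw [hM]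
          ring
        rw [h2] at hm
        have h3 : 2 * (M' * j) + 2 * M' ≤ 2 * (M' * M) * (dl L B (i / 2) + 1) := by
          calc 2 * (M' * j) + 2 * M' = 2 * M' * (j + 1) := by ring
            _ ≤ 2 * M' * (M * (dl L B (i / 2) + 1)) := Nat.mul_le_mul_left _ (by omega)
            _ = 2 * (M' * M) * (dl L B (i / 2) + 1) := by ring
        have h4 : 2 * (M' * M) * dl L B (i / 2) ≤ i / 2 + 2 * (M' * M) * B := by
          have h5 : L * (i / 2 / L) + i / 2 % L = i / 2 := Nat.div_add_mod _ _
          have h6 : min (i / 2 % L) (B - 1) ≤ B := (min_le_right _ _).trans (by omega)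
          unfold dl
          have h7 : 2 * (M' * M) * (i / 2 / L * B + min (i / 2 % L) (B - 1)) ≤
              2 * (M' * M) * (i / 2 / L * B + B) :=
            Nat.mul_le_mul_left _ (Nat.add_le_add_left h6 _)
          have h8 : 2 * (M' * M) * (i / 2 / L * B + B) =
              (2 * (M' * M) * B) * (i / 2 / L) + 2 * (M' * M) * B := by ring
          rw [← hL] at h8
          rw [show 2 * (M' * M) * B = L from hL.symm]
          omega
        have h9 : 2 * (M' * M) * (dl L B (i / 2) + 1) =
          2 * (M' * M) * dl L B (i / 2) + 2 * (M' * M) := by ring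
        have h10 : 4 * (M' * M) * (B + 1) = 2 * (2 * (M' * M) * B) + 4 * (M' * M) := by ring
        omega
  have f5 : u2 ∈ A ↔ y ∈ A := by
    rw [hu2]
    have h0 : (y ∘ fun i => i / M') ∘ dl (2 * B) B = y ∘ fun i => dl (2 * B) B i / M' := rfl
    rw [h0]
    refine lin_of_delay hk (T := fun i => dl (2 * B) B i / M')
      (e := fun i => ps (2 * B) B (M' * i)) ((primrec_half M').comp (primrec_dl _ _))
      ((primrec_ps _ _).comp (Primrec.nat_mul.comp (Primrec.const M') Primrec.id))
      (C := 2 * B + 2 * M' + 2) (fun n => ?_) (fun n => ?_) (fun n => ?_) y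
    · rw [dl_ps (by omega) (by omega), Nat.mul_div_cancel_left _ (by omega)]
    · have h1 := dl_two (B := B) n
      have h2 : dl (2 * B) B n / M' ≤ dl (2 * B) B n := Nat.div_le_self _ _
      have h3 : (2 * B + 2 * M' + 2) * n = 2 * B * n + 2 * (M' * n) + 2 * n := by ring
      omega
    · have h1 := ps_two (B := B) (M' * n)
      have h3 : (2 * B + 2 * M' + 2) * n = 2 * B * n + 2 * (M' * n) + 2 * n := by ring
      omega
  rw [← f1, ← f2, ← f3, f4, f5]

/-- `A` is closed under Turing equivalence with use at most `n + C * n`, for all `C`. -/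
def LinearUseInvariant (A : Set (ℕ → Bool)) : Prop :=
  ∀ C : ℕ, ClosedPair (fun n => ((C * n : ℕ) : ℕ∞)) (fun n => ((C * n : ℕ) : ℕ∞)) A

theorem linear_of_pair {g g' : ℕ → ℕ∞} (hg : Linear g ∨ Linear g') {A : Set (ℕ → Bool)}
    (hA : ClosedPair g g' A) : LinearUseInvariant A := by
  intro C x y h1 h2
  have h1' := useLE_of_use (g := fun n => C * n) h1
  have h2' := useLE_of_use (g := fun n => C * n) h2
  rcases hg with hg | hg
  · exact lin_of_pair hg hA.swap C h1' h2'
  · exact lin_of_pair hg hA C h1' h2'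

/-- Conversely, closure under linear use gives closure under all pairs with linear bounds. -/
theorem pair_of_linear {g g' : ℕ → ℕ∞} {C : ℕ} (hg : ∀ n : ℕ, g n ≤ ((C * n : ℕ) : ℕ∞))
    (hg' : ∀ n : ℕ, g' n ≤ ((C * n : ℕ) : ℕ∞)) {A : Set (ℕ → Bool)}
    (hA : LinearUseInvariant A) : ClosedPair g g' A :=
  fun x y h1 h2 => hA C x y (h1.mono hg) (h2.mono hg')

end Pool.Agent.Q206.UD
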