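import Pool.Agent.Q206.UD.Use

/-!
# One-sided bounds for the use: delays
-/

set_option autoImplicit false

namespace Pool.Agent.Q206.UD

open Encodable
open Nat.Partrec (Code)
open Pool.Agent.H685R3 Pool.Agent.Q202.IDet Pool.Agent.Helper227 Pool.Agent.Y588.TC
  Pool.Agent.Q202.IDet2

/-- The sequence `x` is in `A` if and only if `x ∘ d` is, for all primitive recursive maps `d` with
`d n ≤ n` for all but finitely many `n`, if `x` is obtained back from `x ∘ d` by a primitive
recursive map `d'` with `d' n ≤ n + n / k + C`, for some `C`. -/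
def DelayInvariant (k : ℕ) (A : Set (ℕ → Bool)) : Prop :=
  ∀ d d' : ℕ → ℕ, Primrec d → Primrec d' → (∃ N, ∀ n, N ≤ n → d n ≤ n) →
    (∃ C, ∀ n, k * d' n ≤ k * n + n + C) → ∀ x : ℕ → Bool, (x ∘ d) ∘ d' = x →
      (x ∘ d ∈ A ↔ x ∈ A)

/-- `x ∘ P` is in `A` if and only if `x ∘ Q` is. -/
def Rel (A : Set (ℕ → Bool)) (P Q : ℕ → ℕ) : Prop := ∀ x : ℕ → Bool, x ∘ P ∈ A ↔ x ∘ Q ∈ A

theorem Rel.trans {A : Set (ℕ → Bool)} {P Q R : ℕ → ℕ} (h1 : Rel A P Q) (h2 : Rel A Q R) :
    Rel A P R := fun x => (h1 x).trans (h2 x)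

theorem Rel.symm {A : Set (ℕ → Bool)} {P Q : ℕ → ℕ} (h1 : Rel A P Q) : Rel A Q P :=
  fun x => (h1 x).symm

theorem rel_step {k : ℕ} {A : Set (ℕ → Bool)} (hA : DelayInvariant k A) {P Q d d' : ℕ → ℕ}
    (hd : Primrec d) (hd' : Primrec d') (hQ : ∀ n, Q n = P (d n)) (hP : ∀ n, P n = Q (d' n))
    {N C : ℕ} (h1 : ∀ n, N ≤ n → d n ≤ n) (h2 : ∀ n, k * d' n ≤ k * n + n + C) : Rel A P Q := by
  intro x
  have h3 : (x ∘ P) ∘ d = x ∘ Q := by
    funext n
    simp only [Function.comp_apply, hQ]
  have h4 : ((x ∘ P) ∘ d) ∘ d' = x ∘ P := by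
    rw [h3]
    funext n
    simp only [Function.comp_apply, hP]
  have h5 := hA d d' hd hd' ⟨N, h1⟩ ⟨C, h2⟩ (x ∘ P) h4
  rw [h3] at h5
  exact h5.symm

/-- The delay with `a` positions used in each block of length `L`. -/
def dl (L a n : ℕ) : ℕ := n / L * a + min (n % L) (a - 1)

/-- The place of the position `i` under the delay. -/
def ps (L a i : ℕ) : ℕ := i / a * L + i % a

theorem dl_ps {L a : ℕ} (ha : 0 < a) (haL : a ≤ L) (i : ℕ) : dl L a (ps L a i) = i := by
  have h1 : i % a < a := Nat.mod_lt _ ha
  have hL : 0 < L := by omega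
  unfold dl ps
  have h2 : (i / a * L + i % a) / L = i / a := by
    rw [add_comm, Nat.add_mul_div_right _ _ hL, Nat.div_eq_of_lt (by omega), zero_add]
  have h3 : (i / a * L + i % a) % L = i % a := by
    rw [add_comm, Nat.add_mul_mod_self_right, Nat.mod_eq_of_lt (by omega)]
  rw [h2, h3, min_eq_left (by omega), mul_comm]
  exact Nat.div_add_mod i a

theorem ps_le {L a : ℕ} (ha : 0 < a) (haL : a ≤ L) {i n : ℕ} (h : i ≤ dl L a n) :
    ps L a i ≤ n := by
  have h1 : i % a < a := Nat.mod_lt _ ha
  have h2 : a * (i / a) + i % a = i := Nat.div_add_mod i a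
  have h3 : L * (n / L) + n % L = n := Nat.div_add_mod n L
  unfold dl at h
  unfold ps
  have h4 : min (n % L) (a - 1) ≤ a - 1 := min_le_right _ _
  have h5 : min (n % L) (a - 1) ≤ n % L := min_le_left _ _
  rcases Nat.lt_trichotomy (i / a) (n / L) with h6 | h6 | h6
  · have h7 : (i / a + 1) * L ≤ n / L * L := Nat.mul_le_mul_right _ h6
    have h8 : (i / a + 1) * L = i / a * L + L := by ring
    have h9 : n / L * L = L * (n / L) := by ring
    omega
  · rw [h6] at h2 ⊢
    have h9 : n / L * L = L * (n / L) := by ring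
    have h10 : n / L * a = a * (n / L) := by ring
    omega
  · have h7 : (n / L + 1) * a ≤ i / a * a := Nat.mul_le_mul_right _ h6
    have h8 : (n / L + 1) * a = n / L * a + a := by ring
    have h9 : i / a * a = a * (i / a) := by ring
    omega

theorem dl_succ_le {L b n : ℕ} : dl L b n ≤ dl L (b + 1) n := by
  unfold dl
  have h1 : n / L * b ≤ n / L * (b + 1) := Nat.mul_le_mul_left _ (Nat.le_succ _)
  have h2 : min (n % L) (b - 1) ≤ min (n % L) (b + 1 - 1) := min_le_min_left _ (by omega)
  exact Nat.add_le_add h1 h2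

theorem slack_le {k b p n c : ℕ} (hk : k ≤ b) (h : b * p ≤ b * n + n + c) :
    k * p ≤ k * n + n + c := by
  rcases le_total p n with h1 | h1
  · have := Nat.mul_le_mul_left k h1
    omega
  · obtain ⟨m, rfl⟩ := Nat.exists_eq_add_of_le h1
    have h2 := Nat.mul_le_mul_right m hk
    rw [mul_add] at h ⊢
    omega

theorem ps_dl_slack {L b : ℕ} (n : ℕ) (hbL : b + 1 ≤ L) :
    b * ps L b (dl L (b + 1) n) ≤ b * n + n + (b * L + b * b + b * L) := by
  have h1 : ∀ i, b * ps L b i ≤ i * L + b * b := by
    intro i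
    rcases Nat.eq_zero_or_pos b with rfl | hb
    · simp
    have h2 : b * (i / b) + i % b = i := Nat.div_add_mod i b
    have h3 : i % b < b := Nat.mod_lt _ hb
    unfold ps
    calc b * (i / b * L + i % b) = (b * (i / b)) * L + b * (i % b) := by ring
      _ ≤ i * L + b * b := Nat.add_le_add (Nat.mul_le_mul_right _ (by omega))
          (Nat.mul_le_mul_left _ h3.le)
  refine (h1 _).trans ?_
  have h4 : L * (n / L) + n % L = n := Nat.div_add_mod n L
  unfold dl
  have h5 : min (n % L) (b + 1 - 1) ≤ b := (min_le_right _ _).trans (by omega)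
  have h6 : (n / L * (b + 1) + min (n % L) (b + 1 - 1)) * L ≤ (n / L * (b + 1) + b) * L :=
    Nat.mul_le_mul_right _ (Nat.add_le_add_left h5 _)
  have h7 : (n / L * (b + 1) + b) * L = (b + 1) * (L * (n / L)) + b * L := by ring
  have h8 : (b + 1) * (L * (n / L)) ≤ (b + 1) * n := Nat.mul_le_mul_left _ (by omega)
  have h9 : (b + 1) * n = b * n + n := by ring
  omega

theorem ps_two {B : ℕ} (i : ℕ) : ps (2 * B) B i ≤ 2 * i := by
  have h2 : B * (i / B) + i % B = i := Nat.div_add_mod i B
  unfold ps
  have h3 : i / B * (2 * B) = 2 * (B * (i / B)) := by ring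
  omega

theorem dl_two {B : ℕ} (n : ℕ) : 2 * dl (2 * B) B n ≤ n + 2 * B := by
  have h2 : 2 * B * (n / (2 * B)) + n % (2 * B) = n := Nat.div_add_mod n (2 * B)
  unfold dl
  have h3 : 2 * (n / (2 * B) * B) = 2 * B * (n / (2 * B)) := by ring
  have h4 : min (n % (2 * B)) (B - 1) ≤ B - 1 := min_le_right _ _
  omega

theorem primrec_dl (L a : ℕ) : Primrec (dl L a) :=
  Primrec.nat_add.comp (Primrec.nat_mul.comp (Primrec.nat_div.comp Primrec.id (Primrec.const L))
    (Primrec.const a)) (Primrec.nat_min.comp (Primrec.nat_mod.comp Primrec.id (Primrec.const L))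
    (Primrec.const (a - 1)))

theorem primrec_ps (L a : ℕ) : Primrec (ps L a) :=
  Primrec.nat_add.comp (Primrec.nat_mul.comp (Primrec.nat_div.comp Primrec.id (Primrec.const a))
    (Primrec.const L)) (Primrec.nat_mod.comp Primrec.id (Primrec.const a))

theorem dl_self {L : ℕ} (hL : 0 < L) : dl L L = id := by
  funext n
  have h1 : L * (n / L) + n % L = n := Nat.div_add_mod n L
  have h2 : n % L < L := Nat.mod_lt _ hL
  have h3 : n / L * L = L * (n / L) := by ring
  unfold dl
  rw [min_eq_left (by omega), h3, h1]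
  rfl

theorem rel_dl {k : ℕ} {A : Set (ℕ → Bool)} (hA : DelayInvariant k A) {L : ℕ} (hL : k + 1 ≤ L) :
    ∀ t, k + 1 + t ≤ L → Rel A id (dl L (L - t)) := by
  intro t
  induction t with
  | zero =>
    intro _
    rw [Nat.sub_zero, dl_self (by omega)]
    exact fun _ => Iff.rfl
  | succ t ih =>
    intro ht
    obtain ⟨b, hb⟩ : ∃ b, b = L - (t + 1) := ⟨_, rfl⟩
    have hb1 : L - t = b + 1 := by omega
    rw [← hb]
    have ih' := ih (by omega)
    rw [hb1] at ih'
    refine ih'.trans (rel_step hA (d := fun n => ps L (b + 1) (dl L b n))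
      (d' := fun n => ps L b (dl L (b + 1) n)) ((primrec_ps _ _).comp (primrec_dl _ _))
      ((primrec_ps _ _).comp (primrec_dl _ _)) (N := 0)
      (C := b * L + b * b + b * L) ?_ ?_ ?_ ?_)
    · intro n
      rw [dl_ps (by omega) (by omega)]
    · intro n
      rw [dl_ps (by omega) (by omega)]
    · intro n _
      exact ps_le (by omega) (by omega) dl_succ_le
    · intro n
      exact slack_le (by omega) (ps_dl_slack n (by omega))

/-- Two streams. -/
def mux (f g : ℕ → ℕ) (n : ℕ) : ℕ := if n % 2 = 0 then f (n / 2) else g (n / 2)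

theorem mux_even (f g : ℕ → ℕ) (n : ℕ) : mux f g (2 * n) = f n := by
  unfold mux
  rw [if_pos (by omega), show 2 * n / 2 = n by omega]

theorem mux_odd (f g : ℕ → ℕ) (n : ℕ) : mux f g (2 * n + 1) = g n := by
  unfold mux
  rw [if_neg (by omega), show (2 * n + 1) / 2 = n by omega]

theorem primrec_ite_mod {f g : ℕ → ℕ} (hf : Primrec f) (hg : Primrec g) (m r : ℕ) :
    Primrec fun n : ℕ => if n % m = r then f n else g n :=
  Primrec.ite (Primrec.eq.comp (Primrec.nat_mod.comp Primrec.id (Primrec.const m))
    (Primrec.const r)) hf hg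

theorem primrec_half (m : ℕ) : Primrec fun n : ℕ => n / m :=
  Primrec.nat_div.comp Primrec.id (Primrec.const m)

theorem primrec_twice {f : ℕ → ℕ} (hf : Primrec f) : Primrec fun n : ℕ => 2 * f n :=
  Primrec.nat_mul.comp (Primrec.const 2) hf

theorem rel_mux {k : ℕ} {A : Set (ℕ → Bool)} (hA : DelayInvariant k A) {L : ℕ} (hL : k + 1 ≤ L)
    (f T : ℕ → ℕ) : ∀ t, k + 1 + t ≤ L → Rel A (mux f T) (mux (f ∘ dl L (L - t)) T) := by
  intro t
  induction t with
  | zero =>
    intro _
    rw [Nat.sub_zero, dl_self (by omega)]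
    exact fun _ => Iff.rfl
  | succ t ih =>
    intro ht
    obtain ⟨b, hb⟩ : ∃ b, b = L - (t + 1) := ⟨_, rfl⟩
    have hb1 : L - t = b + 1 := by omega
    rw [← hb]
    have ih' := ih (by omega)
    rw [hb1] at ih'
    refine ih'.trans (rel_step hA
      (d := fun n => if n % 2 = 0 then 2 * ps L (b + 1) (dl L b (n / 2)) else n)
      (d' := fun n => if n % 2 = 0 then 2 * ps L b (dl L (b + 1) (n / 2)) else n)
      (primrec_ite_mod (primrec_twice ((primrec_ps _ _).comp ((primrec_dl _ _).comp
        (primrec_half 2)))) Primrec.id 2 0)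
      (primrec_ite_mod (primrec_twice ((primrec_ps _ _).comp ((primrec_dl _ _).comp
        (primrec_half 2)))) Primrec.id 2 0) (N := 0)
      (C := 2 * (b * L + b * b + b * L)) ?_ ?_ ?_ ?_)
    · intro n
      by_cases hn : n % 2 = 0
      · simp only [if_pos hn]
        rw [mux_even, Function.comp_apply, dl_ps (by omega) (by omega)]
        unfold mux
        rw [if_pos hn]
        rfl
      · simp only [if_neg hn]
        unfold mux
        rw [if_neg hn, if_neg hn]
    · intro n
      by_cases hn : n % 2 = 0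
      · simp only [if_pos hn]
        rw [mux_even, Function.comp_apply, dl_ps (by omega) (by omega)]
        unfold mux
        rw [if_pos hn]
        rfl
      · simp only [if_neg hn]
        unfold mux
        rw [if_neg hn, if_neg hn]
    · intro n _
      by_cases hn : n % 2 = 0
      · simp only [if_pos hn]
        have := ps_le (L := L) (a := b + 1) (i := dl L b (n / 2)) (n := n / 2) (by omega)
          (by omega) dl_succ_le
        omega
      · simp only [if_neg hn]
        exact le_rfl
    · intro n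
      by_cases hn : n % 2 = 0
      · simp only [if_pos hn]
        have h1 := slack_le (k := k) (by omega) (ps_dl_slack (L := L) (b := b) (n / 2) (by omega))
        have h2 : k * (2 * ps L b (dl L (b + 1) (n / 2))) =
          2 * (k * ps L b (dl L (b + 1) (n / 2))) := by ring
        have h3 : k * (2 * (n / 2)) = 2 * (k * (n / 2)) := by ring
        have h4 : 2 * (n / 2) = n := by omega
        rw [h4] at h3
        omega
      · simp only [if_neg hn]
        omega

/-- Closure under delays with small slack gives closure under all maps `T` with `T n ≤ n` for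
almost all `n` and a section of linear growth. -/
theorem interp {k : ℕ} {A : Set (ℕ → Bool)} (hA : DelayInvariant k A) {T e : ℕ → ℕ}
    (hT : Primrec T) (he : Primrec e) {N C : ℕ} (hTn : ∀ n, N ≤ n → T n ≤ n)
    (hTe : ∀ n, T (e n) = n) (hen : ∀ n, e n ≤ C * n + C) (x : ℕ → Bool) :
    x ∘ T ∈ A ↔ x ∈ A := by
  obtain ⟨B, hB⟩ : ∃ B, B = k + 1 := ⟨_, rfl⟩
  obtain ⟨L, hL⟩ : ∃ L, L = 2 * (C + 1) * B := ⟨_, rfl⟩
  have hLB : B ≤ L := by
    rw [hL]
    nlinarith
  have s1 : Rel A id (dl (2 * B) B) := by
    have := rel_dl hA (L := 2 * B) (by omega) B (by omega)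
    rwa [show 2 * B - B = B by omega] at this
  have s2 : Rel A (dl (2 * B) B) (mux id T) := by
    refine rel_step hA
      (d := fun n => if n % 2 = 0 then ps (2 * B) B (n / 2) else ps (2 * B) B (T (n / 2)))
      (d' := fun n => 2 * dl (2 * B) B n)
      (primrec_ite_mod ((primrec_ps _ _).comp (primrec_half 2))
        ((primrec_ps _ _).comp (hT.comp (primrec_half 2))) 2 0)
      (primrec_twice (primrec_dl _ _)) (N := 2 * N) (C := k * (2 * B)) ?_ ?_ ?_ ?_
    · intro n
      by_cases hn : n % 2 = 0
      · simp only [if_pos hn]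
        rw [dl_ps (by omega) (by omega)]
        unfold mux
        rw [if_pos hn]
        rfl
      · simp only [if_neg hn]
        rw [dl_ps (by omega) (by omega)]
        unfold mux
        rw [if_neg hn]
    · intro n
      rw [mux_even]
      rfl
    · intro n hn
      by_cases h1 : n % 2 = 0
      · simp only [if_pos h1]
        have := ps_two (B := B) (n / 2)
        omega
      · simp only [if_neg h1]
        have h2 := ps_two (B := B) (T (n / 2))
        have h3 := hTn (n / 2) (by omega)
        omega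
    · intro n
      have h1 := Nat.mul_le_mul_left k (dl_two (B := B) n)
      rw [mul_add] at h1
      omega
  have s3 : Rel A (mux id T) (mux (dl L B) T) := by
    have := rel_mux hA (L := L) (by omega) id T (L - B) (by omega)
    rwa [show L - (L - B) = B by omega, Function.id_comp] at this
  have s4 : Rel A (T ∘ dl (2 * B) B) (mux (dl L B) T) := by
    refine rel_step hA
      (d := fun n => if n % 2 = 0 then ps (2 * B) B (e (dl L B (n / 2))) else ps (2 * B) B (n / 2))
      (d' := fun n => 2 * dl (2 * B) B n + 1)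
      (primrec_ite_mod ((primrec_ps _ _).comp (he.comp ((primrec_dl _ _).comp (primrec_half 2))))
        ((primrec_ps _ _).comp (primrec_half 2)) 2 0)
      (Primrec.succ.comp (primrec_twice (primrec_dl _ _)))
      (N := 2 * (2 * (C + 1) * (B + 1))) (C := k * (2 * B + 1)) ?_ ?_ ?_ ?_
    · intro n
      by_cases hn : n % 2 = 0
      · simp only [if_pos hn, Function.comp_apply]
        rw [dl_ps (by omega) (by omega), hTe]
        unfold mux
        rw [if_pos hn]
      · simp only [if_neg hn, Function.comp_apply]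
        rw [dl_ps (by omega) (by omega)]
        unfold mux
        rw [if_neg hn]
    · intro n
      rw [mux_odd]
      rfl
    · intro n hn
      by_cases h1 : n % 2 = 0
      · simp only [if_pos h1]
        have h2 := ps_two (B := B) (e (dl L B (n / 2)))
        have h3 := hen (dl L B (n / 2))
        have h4 : 2 * (C + 1) * dl L B (n / 2) ≤ n / 2 + 2 * (C + 1) * B := by
          have h5 : L * (n / 2 / L) + n / 2 % L = n / 2 := Nat.div_add_mod _ _
          have h6 : min (n / 2 % L) (B - 1) ≤ B := (min_le_right _ _).trans (by omega)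
          unfold dl
          have h7 : 2 * (C + 1) * (n / 2 / L * B + min (n / 2 % L) (B - 1)) ≤
              2 * (C + 1) * (n / 2 / L * B + B) :=
            Nat.mul_le_mul_left _ (Nat.add_le_add_left h6 _)
          have h8 : 2 * (C + 1) * (n / 2 / L * B + B) =
              (2 * (C + 1) * B) * (n / 2 / L) + 2 * (C + 1) * B := by ring
          rw [← hL] at h8
          rw [show 2 * (C + 1) * B = L from hL.symm]
          omega
        have h9 : 2 * (C + 1) * dl L B (n / 2) = 2 * (C * dl L B (n / 2)) + 2 * dl L B (n / 2) := by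
          ring
        have h10 : 2 * (C + 1) * (B + 1) = 2 * (C + 1) * B + 2 * C + 2 := by ring
        omega
      · simp only [if_neg h1]
        have := ps_two (B := B) (n / 2)
        omega
    · intro n
      have h1 := Nat.mul_le_mul_left k (Nat.add_le_add_right (dl_two (B := B) n) 1)
      rw [add_assoc, mul_add (a := k) (b := n)] at h1
      omega
  have s5 : x ∘ T ∈ A ↔ x ∘ (T ∘ dl (2 * B) B) ∈ A := s1 (x ∘ T)
  rw [s5]
  exact ((s1.trans (s2.trans s3)).trans s4.symm x).symm

end Pool.Agent.Q206.UD
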