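import Pool.Agent.Q206.UD.Use

/-!
# Bounds for the use: the two cases
-/

set_option autoImplicit false

namespace Pool.Agent.Q206.UD

open Encodable
open Nat.Partrec (Code)
open Pool.Agent.H685R3 Pool.Agent.Q202.IDet Pool.Agent.Helper227 Pool.Agent.Y588.TC
  Pool.Agent.Q202.IDet2

open Classical in
/-- The decoder given by a program which may use some of the bits only. -/
noncomputable def pdec (c : Code) : Dec := fun L s =>
  if h : ∃ R : List Bool, ∃ m ≤ (L ++ s).length,
    encode R ∈ c.eval (encode (L.length, (L ++ s).take m)) then h.choose else []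

theorem exists_sparse {g : ℕ → ℕ} (hg : ∀ k N, ∃ n, N ≤ n ∧ (k + 1) * g n ≤ n) :
    ∃ S : Set ℕ, S.Infinite ∧ ∀ k : ℕ, ∃ N, ∀ n ∈ S, N ≤ n → (k + 1) * g n ≤ n := by
  choose F hF1 hF2 using hg
  let s : ℕ → ℕ := fun j => Nat.rec (F 0 0) (fun j r => F (j + 1) (r + 1)) j
  have hs : ∀ j, s (j + 1) = F (j + 1) (s j + 1) := fun j => rfl
  have hmono : StrictMono s := strictMono_nat_of_lt_succ fun j => by
    rw [hs]
    exact hF1 (j + 1) (s j + 1)
  have hgs : ∀ j, (j + 1) * g (s j) ≤ s j := by
    intro j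
    cases j with
    | zero => exact hF2 0 0
    | succ j =>
      rw [hs]
      exact hF2 (j + 1) (s j + 1)
  refine ⟨Set.range s, Set.infinite_range_of_injective hmono.injective, fun k => ⟨s k, ?_⟩⟩
  rintro _ ⟨j, rfl⟩ hj
  have hkj : k ≤ j := hmono.le_iff_le.mp hj
  exact (Nat.mul_le_mul_right _ (Nat.add_le_add_right hkj 1)).trans (hgs j)

theorem low_of_use {g : ℕ → ℕ} {S : Set ℕ}
    (hS : ∀ k : ℕ, ∃ N, ∀ n ∈ S, N ≤ n → (k + 1) * g n ≤ n) {x y : ℕ → Bool} (h : UseLE g x y) :
    Low S pdec x y := by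
  obtain ⟨c, hc, hc'⟩ := h
  intro k
  obtain ⟨N, hN⟩ := hS k
  refine ⟨c, N, fun n hnS hn => ⟨(hist y (n + g n)).drop n, ?_, ?_⟩⟩
  · rw [List.length_drop, hist_length, Nat.add_sub_cancel_left]
    exact hN n hnS hn
  · have h3 : hist y n ++ (hist y (n + g n)).drop n = hist y (n + g n) := by
      rw [← hist_take y (Nat.le_add_right n (g n)), List.take_append_drop]
    obtain ⟨m, hm, hcm⟩ := hc n
    have hex : ∃ R : List Bool, ∃ m ≤ (hist y n ++ (hist y (n + g n)).drop n).length,
        encode R ∈ c.eval (encode ((hist y n).length,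
          (hist y n ++ (hist y (n + g n)).drop n).take m)) := by
      refine ⟨hist x n, m, ?_, ?_⟩
      · rw [h3, hist_length]
        exact hm
      · rw [h3, hist_length, hist_take y hm]
        exact hcm
    have key : ∀ (R : List Bool) (m' : ℕ),
        m' ≤ (hist y n ++ (hist y (n + g n)).drop n).length →
        encode R ∈ c.eval (encode ((hist y n).length,
          (hist y n ++ (hist y (n + g n)).drop n).take m')) → R = hist x n := by
      intro R m' hm' h4
      rw [h3, hist_length] at hm'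
      rw [h3, hist_length, hist_take y hm'] at h4
      exact encode_injective (hc' n m' _ h4)
    unfold pdec
    rw [dif_pos hex]
    obtain ⟨m', hm', h4⟩ := hex.choose_spec
    exact key _ m' hm' h4

/-- If `g n / n` has lower limit zero then the games with payoff sets closed under Turing
equivalence with use `n + g n` code all games. -/
theorem gives_AD {g : ℕ → ℕ} (hg : ∀ k N, ∃ n, N ≤ n ∧ (k + 1) * g n ≤ n) :
    ∃ W D F, Codes W D F ∧ ∀ x y, UseLE g x y → UseLE g y x → Same W D F x y := by
  obtain ⟨S, hS, hgS⟩ := exists_sparse hg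
  obtain ⟨W, D, F, h1, h2, -⟩ := main3 hS pdec
  exact ⟨W, D, F, h1, fun x y hxy hyx => h2 x y (low_of_use hgS hxy) (low_of_use hgS hyx)⟩

theorem use_tLe {g : ℕ → ℕ} {x y : ℕ → Bool} (h : UseLE g x y) : TLe x y := by
  obtain ⟨c, hc, hc'⟩ := h
  rw [tLe_iff_SI]
  have h1 : SI y fun a : ℕ × Bool => ∃ σ : List Bool,
      (∀ i < σ.length, y i = σ.getD i false) ∧
        ∃ R : List Bool, encode R ∈ c.eval (encode (a.1 + 1, σ)) ∧ R.getD a.1 false = a.2 := by
    refine SI.ex (p := fun (a : ℕ × Bool) (σ : List Bool) =>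
      (∀ i < σ.length, y i = σ.getD i false) ∧
        ∃ R : List Bool, encode R ∈ c.eval (encode (a.1 + 1, σ)) ∧ R.getD a.1 false = a.2)
      (SI.and ?_ (SI.ex (p := fun (x : (ℕ × Bool) × List Bool) (R : List Bool) =>
        encode R ∈ c.eval (encode (x.1.1 + 1, x.2)) ∧ R.getD x.1.1 false = x.1.2)
        (SI.and ?_ ?_)))
    · refine SI.all_lt (α := (ℕ × Bool) × List Bool) (p := fun x i => y i = x.2.getD i false)
        (f := fun x => x.2.length) ?_ (Primrec.list_length.comp Primrec.snd)
      exact SI.query.comp (f := fun z : ((ℕ × Bool) × List Bool) × ℕ => (z.2, z.1.2.getD z.2 false))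
        (Primrec.snd.pair ((Primrec.list_getD false).comp (Primrec.snd.comp Primrec.fst)
          Primrec.snd))
    · refine SI.of_s1 (s1_graph.comp (f := fun z : ((ℕ × Bool) × List Bool) × List Bool =>
        ((c, encode (z.1.1.1 + 1, z.1.2)), encode z.2)) ?_)
      refine Primrec.pair (Primrec.pair (Primrec.const c) (Primrec.encode.comp (Primrec.pair
        (Primrec.succ.comp (Primrec.fst.comp (Primrec.fst.comp Primrec.fst)))
        (Primrec.snd.comp Primrec.fst)))) (Primrec.encode.comp Primrec.snd)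
    · refine SI.of_prim (Primrec.eq.comp ((Primrec.list_getD false).comp Primrec.snd
        (Primrec.fst.comp (Primrec.fst.comp Primrec.fst)))
        (Primrec.snd.comp (Primrec.fst.comp Primrec.fst)))
  refine h1.of_eq fun a => ?_
  constructor
  · rintro ⟨σ, h2, R, h4, h5⟩
    have h6 : hist y σ.length = σ := by
      refine List.ext_getElem (by rw [hist_length]) fun i h7 h8 => ?_
      rw [← List.getD_eq_getElem _ false h7, hist_getD h8, h2 i h8, List.getD_eq_getElem _ _ h8]
    rw [← h6] at h4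
    rw [encode_injective (hc' (a.1 + 1) σ.length _ h4), hist_getD (Nat.lt_succ_self _)] at h5
    exact h5
  · intro h2
    obtain ⟨m, -, hm⟩ := hc (a.1 + 1)
    refine ⟨hist y m, fun i hi => ?_, hist x (a.1 + 1), hm, ?_⟩
    · rw [hist_length] at hi
      exact (hist_getD hi).symm
    · rw [hist_getD (Nat.lt_succ_self _)]
      exact h2

theorem use_of_turing (g : ℕ → ℕ) {A : Set (ℕ → Bool)} (hA : TuringInvariant A) :
    UseInvariant g A :=
  fun x y h1 h2 h3 => hA x y (use_tLe h1) (use_tLe h2) h3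

/-- Otherwise their determinacy is equivalent to Turing determinacy. -/
theorem gives_TD {g : ℕ → ℕ} (hg : ¬ ∀ k N, ∃ n, N ≤ n ∧ (k + 1) * g n ≤ n)
    {A : Set (ℕ → Bool)} (hA : UseInvariant g A) : CircleInvariant A := by
  push Not at hg
  obtain ⟨k, N, hkN⟩ := hg
  exact circle_of_use hA fun n hn => hkN n hn

end Pool.Agent.Q206.UD
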