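import Pool.Agent.Q206.UD.Main

/-!
# Bounds for the use which may be infinite
-/

set_option autoImplicit false

namespace Pool.Agent.Q206.UD

open Encodable
open Nat.Partrec (Code)
open Pool.Agent.H685R3 Pool.Agent.Q202.IDet Pool.Agent.Helper227 Pool.Agent.Y588.TC
  Pool.Agent.Q202.IDet2

/-- A program computes `x` from `y` with use at most `n + g n` (no bound if `g n` is infinite): for
all `n` it gives the first `n` bits of `x` from `n` and some initial segment of `y` of length at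
most `n + g n`, and from `n` and an initial segment of `y` it gives nothing else. -/
def Use (g : ℕ → ℕ∞) (x y : ℕ → Bool) : Prop :=
  ∃ c : Code, (∀ n : ℕ, ∃ m : ℕ, (m : ℕ∞) ≤ n + g n ∧
      encode (hist x n) ∈ c.eval (encode (n, hist y m))) ∧
    ∀ n m r, r ∈ c.eval (encode (n, hist y m)) → r = encode (hist x n)

/-- `A` is closed under Turing equivalence with use at most `n + g n`. -/
def ClosedUnder (g : ℕ → ℕ∞) (A : Set (ℕ → Bool)) : Prop :=
  ∀ x y, Use g x y → Use g y x → x ∈ A → y ∈ A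

theorem Use.mono {g g' : ℕ → ℕ∞} (h : ∀ n, g n ≤ g' n) {x y : ℕ → Bool} (hx : Use g x y) :
    Use g' x y := by
  obtain ⟨c, hc, hc'⟩ := hx
  refine ⟨c, fun n => ?_, hc'⟩
  obtain ⟨m, hm, hm'⟩ := hc n
  exact ⟨m, hm.trans (add_le_add_right (h n) _), hm'⟩

theorem use_of_useLE {g : ℕ → ℕ} {x y : ℕ → Bool} (h : UseLE g x y) :
    Use (fun n => (g n : ℕ∞)) x y := by
  obtain ⟨c, hc, hc'⟩ := h
  refine ⟨c, fun n => ?_, hc'⟩
  obtain ⟨m, hm, hm'⟩ := hc n
  have hm2 : (m : ℕ∞) ≤ (n : ℕ∞) + (g n : ℕ∞) := by exact_mod_cast hm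
  exact ⟨m, hm2, hm'⟩

theorem useLE_of_use {g : ℕ → ℕ} {x y : ℕ → Bool} (h : Use (fun n => (g n : ℕ∞)) x y) :
    UseLE g x y := by
  obtain ⟨c, hc, hc'⟩ := h
  refine ⟨c, fun n => ?_, hc'⟩
  obtain ⟨m, hm, hm'⟩ := hc n
  have hm2 : (m : ℕ∞) ≤ (n : ℕ∞) + (g n : ℕ∞) := hm
  exact ⟨m, by exact_mod_cast hm2, hm'⟩

/-- The lower limit of `g n / n` is positive. -/
def Linear (g : ℕ → ℕ∞) : Prop :=
  ∃ k N : ℕ, ∀ n : ℕ, N ≤ n → (n : ℕ∞) < (k + 1 : ℕ) * g n

theorem circle_of_linear {g : ℕ → ℕ∞} (hg : Linear g) {A : Set (ℕ → Bool)}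
    (hA : ClosedUnder g A) : CircleInvariant A := by
  obtain ⟨k, N, hk⟩ := hg
  let g' : ℕ → ℕ := fun n => if g n = ⊤ then n + 1 else (g n).toNat
  have h1 : ∀ n, (g' n : ℕ∞) ≤ g n := by
    intro n
    by_cases h : g n = ⊤
    · rw [h]
      exact le_top
    · simp only [g', if_neg h]
      rw [ENat.natCast_toNat h]
  have h2 : UseInvariant g' A := fun x y hx hy =>
    hA x y ((use_of_useLE hx).mono h1) ((use_of_useLE hy).mono h1)
  refine circle_of_use h2 (k := k) (N := N) fun n hn => ?_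
  by_cases h : g n = ⊤
  · simp only [g', if_pos h]
    nlinarith
  · simp only [g', if_neg h]
    have h3 := hk n hn
    rw [← ENat.natCast_toNat h] at h3
    exact_mod_cast h3

theorem gives_AD_top {g : ℕ → ℕ∞} (hg : ¬ Linear g) :
    ∃ W D F, Codes W D F ∧ ∀ x y, Use g x y → Use g y x → Same W D F x y := by
  have h0 : ∀ k N : ℕ, ∃ n : ℕ, N ≤ n ∧ ((k + 1 : ℕ) : ℕ∞) * g n ≤ n := by
    intro k N
    by_contra hcon
    push Not at hcon
    exact hg ⟨k, N, hcon⟩
  -- an infinite set along which `g` is finite and small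
  choose F hF1 hF2 using h0
  obtain ⟨s, hs0, hs⟩ : ∃ s : ℕ → ℕ, s 0 = F 0 0 ∧ ∀ j, s (j + 1) = F (j + 1) (s j + 1) :=
    ⟨fun j => Nat.rec (F 0 0) (fun j r => F (j + 1) (r + 1)) j, rfl, fun _ => rfl⟩
  have hmono : StrictMono s := strictMono_nat_of_lt_succ fun j => by
    rw [hs]
    exact hF1 (j + 1) (s j + 1)
  have hgs : ∀ j : ℕ, ((j + 1 : ℕ) : ℕ∞) * g (s j) ≤ ((s j : ℕ) : ℕ∞) := by
    intro j
    cases j with
    | zero =>
      rw [hs0]
      exact hF2 0 0
    | succ j =>
      rw [hs]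
      exact hF2 (j + 1) (s j + 1)
  have hfin : ∀ j, g (s j) ≠ ⊤ := by
    intro j h
    have h1 := hgs j
    rw [h, ENat.mul_top (by exact_mod_cast Nat.succ_ne_zero j)] at h1
    exact absurd h1 (by simp)
  have hS : ∀ k : ℕ, ∃ N, ∀ n ∈ Set.range s, N ≤ n → (k + 1) * (g n).toNat ≤ n := by
    intro k
    refine ⟨s k, ?_⟩
    rintro _ ⟨j, rfl⟩ hj
    have hkj : k ≤ j := hmono.le_iff_le.mp hj
    have h1 := hgs j
    rw [← ENat.natCast_toNat (hfin j)] at h1
    have h2 : (j + 1) * (g (s j)).toNat ≤ s j := by exact_mod_cast h1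
    exact (Nat.mul_le_mul_right _ (Nat.add_le_add_right hkj 1)).trans h2
  obtain ⟨W, D, G, h1, h2, -⟩ := main3 (Set.infinite_range_of_injective hmono.injective) pdec
  have hlow : ∀ x y, Use g x y → Low (Set.range s) pdec x y := by
    rintro x y ⟨c, hc, hc'⟩ k
    obtain ⟨N, hN⟩ := hS k
    refine ⟨c, N, fun n hnS hn => ⟨(hist y (n + (g n).toNat)).drop n, ?_, ?_⟩⟩
    · rw [List.length_drop, hist_length, Nat.add_sub_cancel_left]
      exact hN n hnS hn
    · have hgn : g n ≠ ⊤ := by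
        obtain ⟨j, rfl⟩ := hnS
        exact hfin j
      have h3 : hist y n ++ (hist y (n + (g n).toNat)).drop n = hist y (n + (g n).toNat) := by
        rw [← hist_take y (Nat.le_add_right n (g n).toNat), List.take_append_drop]
      obtain ⟨m, hm, hcm⟩ := hc n
      rw [← ENat.natCast_toNat hgn] at hm
      have hm' : m ≤ n + (g n).toNat := by exact_mod_cast hm
      have hex : ∃ R : List Bool, ∃ m ≤ (hist y n ++ (hist y (n + (g n).toNat)).drop n).length,
          encode R ∈ c.eval (encode ((hist y n).length,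
            (hist y n ++ (hist y (n + (g n).toNat)).drop n).take m)) := by
        refine ⟨hist x n, m, ?_, ?_⟩
        · rw [h3, hist_length]
          exact hm'
        · rw [h3, hist_length, hist_take y hm']
          exact hcm
      have key : ∀ (R : List Bool) (m' : ℕ),
          m' ≤ (hist y n ++ (hist y (n + (g n).toNat)).drop n).length →
          encode R ∈ c.eval (encode ((hist y n).length,
            (hist y n ++ (hist y (n + (g n).toNat)).drop n).take m')) → R = hist x n := by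
        intro R m' hm' h4
        rw [h3, hist_length] at hm'
        rw [h3, hist_length, hist_take y hm'] at h4
        exact encode_injective (hc' n m' _ h4)
      unfold pdec
      rw [dif_pos hex]
      obtain ⟨m', hm', h4⟩ := hex.choose_spec
      exact key _ m' hm' h4
  exact ⟨W, D, G, h1, fun x y hxy hyx => h2 x y (hlow x y hxy) (hlow y x hyx)⟩

theorem tLe_of_use {g : ℕ → ℕ∞} {x y : ℕ → Bool} (h : Use g x y) : TLe x y := by
  obtain ⟨c, hc, hc'⟩ := h
  choose m hm hm' using hc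
  exact use_tLe (g := m) ⟨c, fun n => ⟨m n, Nat.le_add_left _ _, hm' n⟩, hc'⟩

theorem select {E : List Bool × (ℕ × List Bool) → Prop} (hE : S1 E) :
    ∃ c : Code, ∀ (n : ℕ) (σ : List Bool),
      ((∃ R, E (σ, (n, R))) → ∃ R, E (σ, (n, R)) ∧ encode R ∈ c.eval (encode (n, σ))) ∧
      ∀ r, r ∈ c.eval (encode (n, σ)) → ∃ R, E (σ, (n, R)) ∧ r = encode R := by
  classical
  obtain ⟨q, hq, -, hqE⟩ := hE
  let f : ℕ × List Bool → ℕ → Option ℕ := fun a t =>
    (decode t : Option (List Bool × ℕ)).bind fun b =>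
      if q (a.2, (a.1, b.1)) b.2 then some (encode b.1) else none
  have hf : Computable₂ f := by
    refine Primrec.to_comp ?_
    refine Primrec.option_bind (Primrec.decode.comp Primrec.snd) ?_
    refine Primrec.ite (c := fun x : ((ℕ × List Bool) × ℕ) × (List Bool × ℕ) =>
      q (x.1.1.2, (x.1.1.1, x.2.1)) x.2.2) ?_
      (Primrec.option_some.comp (Primrec.encode.comp (Primrec.fst.comp Primrec.snd)))
      (Primrec.const none)
    exact hq.comp ((Primrec.snd.comp (Primrec.fst.comp Primrec.fst)).pair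
      ((Primrec.fst.comp (Primrec.fst.comp Primrec.fst)).pair (Primrec.fst.comp Primrec.snd)))
      (Primrec.snd.comp Primrec.snd)
  have hspec : ∀ (n : ℕ) (σ : List Bool) (t r : ℕ), r ∈ f (n, σ) t →
      ∃ R, E (σ, (n, R)) ∧ r = encode R := by
    intro n σ t r h
    rw [Option.mem_def] at h
    simp only [f] at h
    rw [Option.bind_eq_some_iff] at h
    obtain ⟨b, -, hb⟩ := h
    split_ifs at hb with h2
    exact ⟨b.1, (hqE _).2 ⟨b.2, h2⟩, (Option.some.inj hb).symm⟩
  obtain ⟨c, hc⟩ := exists_code_of (Partrec.rfindOpt hf)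
  refine ⟨c, fun n σ => ⟨?_, ?_⟩⟩
  · rintro ⟨R, hR⟩
    obtain ⟨t, ht⟩ := (hqE _).1 hR
    have hdom : (Nat.rfindOpt (f (n, σ))).Dom := by
      rw [Nat.rfindOpt_dom]
      refine ⟨encode (R, t), encode R, ?_⟩
      rw [Option.mem_def]
      simp only [f, encodek, Option.bind_some, if_pos ht]
    have h1 := Part.get_mem hdom
    obtain ⟨u, hu⟩ := Nat.rfindOpt_spec h1
    obtain ⟨R', hR', hr⟩ := hspec n σ u _ hu
    refine ⟨R', hR', ?_⟩
    rw [hc, ← hr]
    exact h1
  · intro r hr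
    rw [hc] at hr
    obtain ⟨u, hu⟩ := Nat.rfindOpt_spec hr
    exact hspec n σ u _ hu

theorem use_of_tLe {x y : ℕ → Bool} (h : TLe x y) : Use (fun _ => ⊤) x y := by
  rw [tLe_iff_SI] at h
  have h2 : SI y fun a : ℕ × List Bool =>
      (∀ i < a.2.length, x i = a.2.getD i false) ∧ a.2.length = a.1 := by
    refine SI.and ?_ (SI.of_prim (Primrec.eq.comp (Primrec.list_length.comp Primrec.snd)
      Primrec.fst))
    refine SI.all_lt (α := ℕ × List Bool) (p := fun a i => x i = a.2.getD i false)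
      (f := fun a => a.2.length) ?_ (Primrec.list_length.comp Primrec.snd)
    exact h.comp (f := fun z : (ℕ × List Bool) × ℕ => (z.2, z.1.2.getD z.2 false))
      (Primrec.snd.pair ((Primrec.list_getD false).comp (Primrec.snd.comp Primrec.fst)
        Primrec.snd))
  obtain ⟨E, hE, -, hEy⟩ := h2
  obtain ⟨c, hc⟩ := select hE
  have key : ∀ (n m : ℕ) (R : List Bool), E (hist y m, (n, R)) → R = hist x n := by
    intro n m R hR
    obtain ⟨h3, h4⟩ := (hEy (n, R)).2 ⟨m, hR⟩
    simp only at h3 h4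
    refine List.ext_getElem (by rw [h4, hist_length]) fun i h5 h6 => ?_
    rw [← List.getD_eq_getElem _ false h5, ← h3 i h5, ← List.getD_eq_getElem _ false h6,
      hist_getD (by rw [hist_length] at h6; exact h6)]
  refine ⟨c, fun n => ?_, fun n m r hr => ?_⟩
  · have h3 : (∀ i < (hist x n).length, x i = (hist x n).getD i false) ∧
        (hist x n).length = n := by
      refine ⟨fun i hi => ?_, hist_length _ _⟩
      rw [hist_length] at hi
      exact (hist_getD hi).symm
    obtain ⟨m, hm⟩ := (hEy (n, hist x n)).1 h3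
    obtain ⟨R, hR, hR'⟩ := (hc n (hist y m)).1 ⟨_, hm⟩
    refine ⟨m, by simp, ?_⟩
    rw [key n m R hR] at hR'
    exact hR'
  · obtain ⟨R, hR, rfl⟩ := (hc n (hist y m)).2 r hr
    rw [key n m R hR]

theorem closed_top_iff (A : Set (ℕ → Bool)) :
    ClosedUnder (fun _ => ⊤) A ↔ TuringInvariant A :=
  ⟨fun h x y h1 h2 => h x y (use_of_tLe h1) (use_of_tLe h2),
    fun h x y h1 h2 => h x y (tLe_of_use h1) (tLe_of_use h2)⟩

theorem closed_of_turing (g : ℕ → ℕ∞) {A : Set (ℕ → Bool)} (hA : TuringInvariant A) :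
    ClosedUnder g A :=
  fun x y h1 h2 => hA x y (tLe_of_use h1) (tLe_of_use h2)

end Pool.Agent.Q206.UD
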