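import Pool.Agent.Q206.UD.Delay
import Pool.Agent.Q206.UD.Top

/-!
# Two bounds for the use
-/

set_option autoImplicit false

namespace Pool.Agent.Q206.UD

open Encodable
open Nat.Partrec (Code)
open Pool.Agent.H685R3 Pool.Agent.Q202.IDet Pool.Agent.Helper227 Pool.Agent.Y588.TC
  Pool.Agent.Q202.IDet2

theorem lin_of_delay {k : ℕ} {A : Set (ℕ → Bool)} (hA : DelayInvariant k A) {T e : ℕ → ℕ}
    (hT : Primrec T) (he : Primrec e) {C : ℕ} (hTe : ∀ n, T (e n) = n)
    (hTn : ∀ n, T n ≤ C * n + C) (hen : ∀ n, e n ≤ C * n + C) (x : ℕ → Bool) :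
    x ∘ T ∈ A ↔ x ∈ A := by
  obtain ⟨M, hM⟩ : ∃ M, M = C + 2 := ⟨_, rfl⟩
  have hsmall : ∀ n, M * C ≤ n → ∀ m, m ≤ C * (n / M) + C → m ≤ n := by
    intro n hn m hm
    have h1 : M * (n / M) + n % M = n := Nat.div_add_mod n M
    have h2 : C ≤ n / M := (Nat.le_div_iff_mul_le (by omega)).2 (by rw [mul_comm]; exact hn)
    have h3 : M * (n / M) = C * (n / M) + 2 * (n / M) := by rw [hM]; ring
    omega
  have hdiv : ∀ n, n / M ≤ n := fun n => Nat.div_le_self _ _
  have hm0 : ∀ n, M * n % M = 0 := fun n => Nat.mul_mod_right _ _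
  have hd0 : ∀ n, M * n / M = n := fun n => Nat.mul_div_cancel_left _ (by omega)
  have hm1 : ∀ n, (M * n + 1) % M = 1 := fun n => by
    rw [Nat.mul_add_mod, Nat.mod_eq_of_lt (by omega)]
  have hd1 : ∀ n, (M * n + 1) / M = n := fun n => by
    rw [Nat.mul_add_div (by omega), Nat.div_eq_of_lt (by omega), add_zero]
  have h1 := interp hA (T := fun n => if n % M = 1 then T (n / M) else n / M)
    (e := fun n => M * n) (primrec_ite_mod (hT.comp (primrec_half M)) (primrec_half M) M 1)
    (Primrec.nat_mul.comp (Primrec.const M) Primrec.id) (N := M * C) (C := M)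
    (fun n hn => by
      by_cases h : n % M = 1
      · simp only [if_pos h]
        exact hsmall n hn _ (hTn _)
      · simp only [if_neg h]
        exact hdiv n)
    (fun n => by simp only [hm0, hd0, zero_ne_one, if_false]) (fun n => Nat.le_add_right _ _) x
  have h2 := interp hA (T := fun n => if n % M = 1 then n / M else e (n / M))
    (e := fun n => M * n + 1) (primrec_ite_mod (primrec_half M) (he.comp (primrec_half M)) M 1)
    (Primrec.succ.comp (Primrec.nat_mul.comp (Primrec.const M) Primrec.id)) (N := M * C) (C := M)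
    (fun n hn => by
      by_cases h : n % M = 1
      · simp only [if_pos h]
        exact hdiv n
      · simp only [if_neg h]
        exact hsmall n hn _ (hen _))
    (fun n => by simp only [hm1, hd1, if_true]) (fun n => by omega) (x ∘ T)
  rw [← h1, ← h2]
  have h3 : (x ∘ T) ∘ (fun n => if n % M = 1 then n / M else e (n / M)) =
      x ∘ fun n => if n % M = 1 then T (n / M) else n / M := by
    funext n
    by_cases h : n % M = 1
    · simp only [Function.comp_apply, if_pos h]
    · simp only [Function.comp_apply, if_neg h, hTe]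
  rw [h3]

theorem third_le (n : ℕ) : third n ≤ 2 * n + 2 := by
  unfold third
  split_ifs <;> omega

theorem quarter_le' (n : ℕ) : quarter n ≤ n + 2 := by
  unfold quarter
  split_ifs <;> omega

theorem circle_of_delay {k : ℕ} {A : Set (ℕ → Bool)} (hA : DelayInvariant k A) :
    CircleInvariant A := by
  intro x
  constructor
  · refine lin_of_delay hA primrec_quarter (primrec_quarter.comp (primrec_quarter.comp
      primrec_quarter)) (C := 6) quarter_four (fun n => ?_) (fun n => ?_) x
    · have := quarter_le' n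
      omega
    · have h1 := quarter_le' n
      have h2 := quarter_le' (quarter n)
      have h3 := quarter_le' (quarter (quarter n))
      omega
  · refine lin_of_delay hA primrec_third (primrec_third.comp primrec_third) (C := 6)
      third_three (fun n => ?_) (fun n => ?_) x
    · have := third_le n
      omega
    · have h1 := third_le n
      have h2 := third_le (third n)
      omega

/-- `A` is closed under pairs `x`, `y` such that `x` is computed from `y` with use at most
`n + g n` and `y` is computed from `x` with use at most `n + g' n`. -/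
def ClosedPair (g g' : ℕ → ℕ∞) (A : Set (ℕ → Bool)) : Prop :=
  ∀ x y, Use g x y → Use g' y x → (x ∈ A ↔ y ∈ A)

theorem delay_of_use {g : ℕ → ℕ} {A : Set (ℕ → Bool)}
    (hA : ∀ x y, UseLE (fun _ => 0) x y → UseLE g y x → (x ∈ A ↔ y ∈ A)) {k N : ℕ}
    (hg : ∀ n, N ≤ n → n < (k + 1) * g n) : DelayInvariant (2 * (k + 1)) A := by
  rintro d d' hd hd' ⟨N1, h1⟩ ⟨C, h2⟩ x hx
  obtain ⟨M, hM⟩ : ∃ M, ∀ n, n < N1 → d n ≤ M := by
    refine ⟨∑ i ∈ Finset.range N1, d i, fun n hn => ?_⟩
    exact Finset.single_le_sum (f := d) (fun _ _ => Nat.zero_le _) (Finset.mem_range.2 hn)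
  have h3 : UseLE (fun _ => 0) (x ∘ d) x := by
    refine use_of_perm hd (N := max N1 (M + 1)) (fun n hn i hi => ?_) x
    rcases lt_or_ge i N1 with h | h
    · have := hM i h
      omega
    · have := h1 i h
      omega
  have h4 : UseLE g ((x ∘ d) ∘ d') (x ∘ d) := by
    refine use_of_perm hd' (N := max N C) (fun n hn i hi => ?_) _
    exact bound_of_near (f := id) (f' := d') (fi := id) hg (C := C) (fun m => by
      have h5 := h2 m
      have h6 : (2 * (k + 1) + 1) * m = 2 * (k + 1) * m + m := by ring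
      simp only [id]
      omega) (fun _ => rfl) n hn i hi
  rw [hx] at h4
  exact hA _ _ h3 h4

theorem ClosedPair.swap {g g' : ℕ → ℕ∞} {A : Set (ℕ → Bool)} (hA : ClosedPair g g' A) :
    ClosedPair g' g A := fun x y h1 h2 => (hA y x h2 h1).symm

theorem delay_of_pair {g g' : ℕ → ℕ∞} (hg : Linear g') {A : Set (ℕ → Bool)}
    (hA : ClosedPair g g' A) : ∃ k, DelayInvariant k A := by
  obtain ⟨k, N, hk⟩ := hg
  let g1 : ℕ → ℕ := fun n => if g' n = ⊤ then n + 1 else (g' n).toNat
  have h1 : ∀ n, (g1 n : ℕ∞) ≤ g' n := by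
    intro n
    by_cases h : g' n = ⊤
    · rw [h]
      exact le_top
    · simp only [g1, if_neg h]
      rw [ENat.natCast_toNat h]
  refine ⟨2 * (k + 1), delay_of_use (g := g1) (N := N) (fun x y hx hy => ?_) fun n hn => ?_⟩
  · refine hA x y ((use_of_useLE hx).mono fun n => ?_) ((use_of_useLE hy).mono h1)
    simp
  · by_cases h : g' n = ⊤
    · simp only [g1, if_pos h]
      nlinarith
    · simp only [g1, if_neg h]
      have h3 := hk n hn
      rw [← ENat.natCast_toNat h] at h3
      exact_mod_cast h3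

theorem circle_of_pair {g g' : ℕ → ℕ∞} (hg : Linear g ∨ Linear g') {A : Set (ℕ → Bool)}
    (hA : ClosedPair g g' A) : CircleInvariant A := by
  rcases hg with hg | hg
  · obtain ⟨k, hk⟩ := delay_of_pair hg hA.swap
    exact circle_of_delay hk
  · obtain ⟨k, hk⟩ := delay_of_pair hg hA
    exact circle_of_delay hk

theorem gives_AD_pair {g g' : ℕ → ℕ∞} (hg : ¬ Linear fun n => max (g n) (g' n)) :
    ∃ W D F, Codes W D F ∧ ∀ x y, Use g x y → Use g' y x → Same W D F x y := by
  obtain ⟨W, D, F, h1, h2⟩ := gives_AD_top hg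
  exact ⟨W, D, F, h1, fun x y hx hy => h2 x y (hx.mono fun n => le_max_left _ _)
    (hy.mono fun n => le_max_right _ _)⟩

theorem pair_of_turing (g g' : ℕ → ℕ∞) {A : Set (ℕ → Bool)} (hA : TuringInvariant A) :
    ClosedPair g g' A :=
  fun x y h1 h2 => ⟨hA x y (tLe_of_use h1) (tLe_of_use h2),
    hA y x (tLe_of_use h2) (tLe_of_use h1)⟩

theorem pair_top_iff (A : Set (ℕ → Bool)) :
    ClosedPair (fun _ => ⊤) (fun _ => ⊤) A ↔ TuringInvariant A :=
  ⟨fun h x y h1 h2 => (h x y (use_of_tLe h1) (use_of_tLe h2)).1, pair_of_turing _ _⟩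

end Pool.Agent.Q206.UD
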