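import Mathlib

/-!
# Rearrangements of the positions with small displacement

The permutation `4 m ↦ 4 m + 2 ↦ 2 m + 1 ↦ 4 m` is a product of primitive recursive permutations
which move every position `n` by at most `ε n + C`.
-/

set_option autoImplicit false

namespace Pool.Agent.Q206.UD

/-- The `m`-th element of the set of the numbers whose residues modulo `W` are in the interval
`[o, o + w)`. -/
def el (W w o m : ℕ) : ℕ := m / w * W + o + m % w

theorem el_le {W w o : ℕ} (hw : 0 < w) (hwW : w ≤ W) (ho : o ≤ W) (m : ℕ) :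
    w * el W w o m ≤ m * W + w * (2 * W) := by
  unfold el
  have h1 : w * (m / w) ≤ m := Nat.mul_div_le m w
  have h2 : m % w ≤ W := ((Nat.mod_lt m hw).le).trans hwW
  calc w * (m / w * W + o + m % w) = w * (m / w) * W + w * (o + m % w) := by ring
    _ ≤ m * W + w * (2 * W) := by
        refine Nat.add_le_add (Nat.mul_le_mul_right _ h1) (Nat.mul_le_mul_left _ ?_)
        omega

theorem le_el {W w o : ℕ} (hw : 0 < w) (m : ℕ) : m * W ≤ w * el W w o m + w * W := by
  unfold el
  have h1 : m ≤ w * (m / w) + w := by
    have := Nat.div_add_mod m w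
    have := Nat.mod_lt m hw
    omega
  calc m * W ≤ (w * (m / w) + w) * W := Nat.mul_le_mul_right _ h1
    _ ≤ w * (m / w * W + o + m % w) + w * W := by nlinarith [Nat.zero_le (w * o), Nat.zero_le (w * (m % w))]

/-- The rearrangement which sends the `m`-th multiple of 4 to the `m`-th number with a residue
below `a` modulo `W = a + b + c`, the `m`-th number `≡ 2 mod 4` to the `m`-th one with a residue in
`[a, a + b)`, and the `m`-th odd number to the `m`-th one with a residue in `[a + b, W)`. -/
def psi (a b c n : ℕ) : ℕ :=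
  if n % 4 = 0 then el (a + b + c) a 0 (n / 4)
  else if n % 4 = 2 then el (a + b + c) b a (n / 4)
  else el (a + b + c) c (a + b) (n / 2)

/-- The inverse of `psi`. -/
def phi (a b c n : ℕ) : ℕ :=
  if n % (a + b + c) < a then 4 * (n / (a + b + c) * a + n % (a + b + c))
  else if n % (a + b + c) < a + b then
    4 * (n / (a + b + c) * b + (n % (a + b + c) - a)) + 2
  else 2 * (n / (a + b + c) * c + (n % (a + b + c) - (a + b))) + 1

theorem el_mod {W w o m : ℕ} (hw : 0 < w) (h : o + w ≤ W) :
    el W w o m % W = o + m % w ∧ el W w o m / W = m / w := by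
  unfold el
  have h1 : m % w < w := Nat.mod_lt m hw
  have h2 : o + m % w < W := by omega
  have h3 : 0 < W := by omega
  rw [add_assoc, add_comm (m / w * W)]
  constructor
  · rw [Nat.add_mul_mod_self_right, Nat.mod_eq_of_lt h2]
  · rw [Nat.add_mul_div_right _ _ h3, Nat.div_eq_of_lt h2, zero_add]

theorem div_mod_back {w m : ℕ} : m / w * w + m % w = m := by
  rw [mul_comm]
  exact Nat.div_add_mod m w

theorem phi_psi {a b c : ℕ} (ha : 0 < a) (hb : 0 < b) (hc : 0 < c) (n : ℕ) :
    phi a b c (psi a b c n) = n := by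
  unfold psi
  split_ifs with h1 h2
  · obtain ⟨h3, h4⟩ := el_mod (W := a + b + c) (w := a) (o := 0) (m := n / 4) ha (by omega)
    have h5 := Nat.mod_lt (n / 4) ha
    unfold phi
    rw [h3, h4, if_pos (by omega), zero_add, div_mod_back]
    omega
  · obtain ⟨h3, h4⟩ := el_mod (W := a + b + c) (w := b) (o := a) (m := n / 4) hb (by omega)
    have h5 := Nat.mod_lt (n / 4) hb
    unfold phi
    rw [h3, h4, if_neg (by omega), if_pos (by omega), Nat.add_sub_cancel_left, div_mod_back]
    omega
  · obtain ⟨h3, h4⟩ := el_mod (W := a + b + c) (w := c) (o := a + b) (m := n / 2) hc (by omega)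
    have h5 := Nat.mod_lt (n / 2) hc
    unfold phi
    rw [h3, h4, if_neg (by omega), if_neg (by omega), Nat.add_sub_cancel_left, div_mod_back]
    omega

theorem el_back {W w o q r : ℕ} (hr : r < w) : el W w o (q * w + r) = q * W + (o + r) := by
  unfold el
  have hw : 0 < w := by omega
  have h1 : (q * w + r) / w = q := by
    rw [add_comm, Nat.add_mul_div_right _ _ hw, Nat.div_eq_of_lt hr, zero_add]
  have h2 : (q * w + r) % w = r := by
    rw [add_comm, Nat.add_mul_mod_self_right, Nat.mod_eq_of_lt hr]
  rw [h1, h2, add_assoc]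

theorem psi_phi {a b c : ℕ} (ha : 0 < a) (n : ℕ) : psi a b c (phi a b c n) = n := by
  have hW : n / (a + b + c) * (a + b + c) + n % (a + b + c) = n := div_mod_back
  have h0 : n % (a + b + c) < a + b + c := Nat.mod_lt _ (by omega)
  generalize hq : n / (a + b + c) = q at hW
  generalize hr : n % (a + b + c) = r at hW h0
  unfold phi
  rw [hq, hr]
  split_ifs with h1 h2
  · unfold psi
    rw [if_pos (by omega), Nat.mul_div_cancel_left _ (by norm_num), el_back h1]
    omega
  · unfold psi
    rw [if_neg (by omega), if_pos (by omega)]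
    have h3 : (4 * (q * b + (r - a)) + 2) / 4 = q * b + (r - a) := by omega
    rw [h3, el_back (by omega)]
    omega
  · unfold psi
    rw [if_neg (by omega), if_neg (by omega)]
    have h3 : (2 * (q * c + (r - (a + b))) + 1) / 2 = q * c + (r - (a + b)) := by omega
    rw [h3, el_back (by omega)]
    omega

theorem primrec_el (W w o : ℕ) : Primrec (el W w o) :=
  Primrec.nat_add.comp (Primrec.nat_add.comp (Primrec.nat_mul.comp
    (Primrec.nat_div.comp Primrec.id (Primrec.const w)) (Primrec.const W)) (Primrec.const o))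
    (Primrec.nat_mod.comp Primrec.id (Primrec.const w))

theorem primrec_psi (a b c : ℕ) : Primrec (psi a b c) := by
  have hm : Primrec fun n : ℕ => n % 4 := Primrec.nat_mod.comp Primrec.id (Primrec.const 4)
  refine Primrec.ite (Primrec.eq.comp hm (Primrec.const 0))
    ((primrec_el _ _ _).comp (Primrec.nat_div.comp Primrec.id (Primrec.const 4)))
    (Primrec.ite (Primrec.eq.comp hm (Primrec.const 2))
      ((primrec_el _ _ _).comp (Primrec.nat_div.comp Primrec.id (Primrec.const 4)))
      ((primrec_el _ _ _).comp (Primrec.nat_div.comp Primrec.id (Primrec.const 2))))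

theorem primrec_phi (a b c : ℕ) : Primrec (phi a b c) := by
  have hq : Primrec fun n : ℕ => n / (a + b + c) :=
    Primrec.nat_div.comp Primrec.id (Primrec.const _)
  have hr : Primrec fun n : ℕ => n % (a + b + c) :=
    Primrec.nat_mod.comp Primrec.id (Primrec.const _)
  refine Primrec.ite (Primrec.nat_lt.comp hr (Primrec.const a))
    (Primrec.nat_mul.comp (Primrec.const 4) (Primrec.nat_add.comp
      (Primrec.nat_mul.comp hq (Primrec.const a)) hr))
    (Primrec.ite (Primrec.nat_lt.comp hr (Primrec.const (a + b)))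
      (Primrec.nat_add.comp (Primrec.nat_mul.comp (Primrec.const 4) (Primrec.nat_add.comp
        (Primrec.nat_mul.comp hq (Primrec.const b))
        (Primrec.nat_sub.comp hr (Primrec.const a)))) (Primrec.const 2))
      (Primrec.nat_add.comp (Primrec.nat_mul.comp (Primrec.const 2) (Primrec.nat_add.comp
        (Primrec.nat_mul.comp hq (Primrec.const c))
        (Primrec.nat_sub.comp hr (Primrec.const (a + b))))) (Primrec.const 1)))

/-- The two rearrangements differ by at most `n / k + C` at all places. -/
def Near (k : ℕ) (f f' : ℕ → ℕ) : Prop :=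
  ∃ C, ∀ n, k * f' n ≤ (k + 1) * f n + C ∧ k * f n ≤ (k + 1) * f' n + C

theorem near_of_le {k : ℕ} {f f' : ℕ → ℕ} {C : ℕ} (h : ∀ n, f' n ≤ f n + C ∧ f n ≤ f' n + C) :
    Near k f f' := by
  refine ⟨k * C, fun n => ?_⟩
  obtain ⟨h1, h2⟩ := h n
  constructor
  · calc k * f' n ≤ k * (f n + C) := Nat.mul_le_mul_left _ h1
      _ ≤ (k + 1) * f n + k * C := by nlinarith
  · calc k * f n ≤ k * (f' n + C) := Nat.mul_le_mul_left _ h2
      _ ≤ (k + 1) * f' n + k * C := by nlinarith

theorem el_near {k W w w' o o' : ℕ} (hw : 0 < w) (hw' : 0 < w') (hW : w ≤ W) (hW' : w' ≤ W)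
    (ho' : o' ≤ W) (hk' : k ≤ w') (hww : w ≤ w' + 1) (m : ℕ) :
    k * el W w' o' m ≤ (k + 1) * el W w o m + k * (4 * W * W) := by
  have h1 := el_le (W := W) (o := o') hw' hW' ho' m
  have h2 := le_el (W := W) (o := o) hw m
  generalize el W w' o' m = e' at h1 ⊢
  generalize el W w o m = e at h2 ⊢
  have h3 : w' * e' ≤ (w' + 1) * e + 4 * W * W := by
    calc w' * e' ≤ m * W + w' * (2 * W) := h1
      _ ≤ w * e + w * W + w' * (2 * W) := by omega
      _ ≤ (w' + 1) * e + W * W + W * (2 * W) := by
          have h4 : w * e ≤ (w' + 1) * e := Nat.mul_le_mul_right _ hww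
          have h5 : w * W ≤ W * W := Nat.mul_le_mul_right _ hW
          have h6 : w' * (2 * W) ≤ W * (2 * W) := Nat.mul_le_mul_right _ hW'
          omega
      _ ≤ (w' + 1) * e + 4 * W * W := by nlinarith
  refine Nat.le_of_mul_le_mul_left ?_ hw'
  generalize 4 * W * W = D at h3 ⊢
  calc w' * (k * e') = k * (w' * e') := by ring
    _ ≤ k * ((w' + 1) * e + D) := Nat.mul_le_mul_left _ h3
    _ = w' * (k * e) + k * e + k * D := by ring
    _ ≤ w' * (k * e) + w' * e + w' * (k * D) := by
        have h4 : k * e ≤ w' * e := Nat.mul_le_mul_right _ hk'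
        have h5 : k * D ≤ w' * (k * D) := Nat.le_mul_of_pos_left _ hw'
        omega
    _ = w' * ((k + 1) * e + k * D) := by ring

theorem psi_near {k L t : ℕ} (hL : 0 < L) (hk : k ≤ L) (ht : t < L) :
    Near k (psi L (L + t) (2 * L - t)) (psi L (L + (t + 1)) (2 * L - (t + 1))) := by
  have hs1 : L + (L + t) + (2 * L - t) = 4 * L := by omega
  have hs2 : L + (L + (t + 1)) + (2 * L - (t + 1)) = 4 * L := by omega
  refine ⟨k * (4 * (4 * L) * (4 * L)), fun n => ?_⟩
  unfold psi
  rw [hs1, hs2]
  split_ifs with h1 h2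
  · constructor
    · exact el_near hL hL (by omega) (by omega) (by omega) hk (by omega) _
    · exact el_near hL hL (by omega) (by omega) (by omega) hk (by omega) _
  · constructor
    · exact el_near (by omega) (by omega) (by omega) (by omega) (by omega) (by omega) (by omega) _
    · exact el_near (by omega) (by omega) (by omega) (by omega) (by omega) (by omega) (by omega) _
  · constructor
    · exact el_near (by omega) (by omega) (by omega) (by omega) (by omega) (by omega) (by omega) _
    · exact el_near (by omega) (by omega) (by omega) (by omega) (by omega) (by omega) (by omega) _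

theorem el_close {L w o d r : ℕ} (hL : 0 < L) (hw : 0 < w) (hwW : w ≤ 4 * L) (ho : o ≤ 4 * L)
    (hd : d * w = 4 * L) (m : ℕ) (hr : r ≤ 3) :
    el (4 * L) w o m ≤ d * m + r + 8 * L ∧ d * m + r ≤ el (4 * L) w o m + 8 * L := by
  have h1 := el_le (W := 4 * L) (o := o) hw hwW ho m
  have h2 := le_el (W := 4 * L) (o := o) hw m
  generalize el (4 * L) w o m = e at h1 h2 ⊢
  have h3 : m * (4 * L) = w * (d * m) := by rw [← hd]; ring
  rw [h3] at h1 h2
  have h4 : w * e ≤ w * (d * m + 2 * (4 * L)) := by
    rw [mul_add]; exact h1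
  have h5 : w * (d * m) ≤ w * (e + 4 * L) := by
    rw [mul_add]; exact h2
  have h6 := Nat.le_of_mul_le_mul_left h4 hw
  have h7 := Nat.le_of_mul_le_mul_left h5 hw
  omega

theorem near_start (k : ℕ) {L : ℕ} (hL : 0 < L) : Near k id (psi L (L + 0) (2 * L - 0)) := by
  have hs : L + (L + 0) + (2 * L - 0) = 4 * L := by omega
  refine near_of_le (C := 8 * L) fun n => ?_
  unfold psi
  rw [hs]
  simp only [id, add_zero, Nat.sub_zero]
  split_ifs with h1 h2
  · have := el_close (L := L) (w := L) (o := 0) (d := 4) (r := 0) hL hL (by omega) (by omega)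
      (by ring) (n / 4) (by omega)
    omega
  · have := el_close (L := L) (w := L) (o := L) (d := 4) (r := 2) hL hL (by omega) (by omega)
      (by ring) (n / 4) (by omega)
    omega
  · have := el_close (L := L) (w := 2 * L) (o := L + L) (d := 2) (r := 1) hL (by omega)
      (by omega) (by omega) (by ring) (n / 2) (by omega)
    omega

end Pool.Agent.Q206.UD
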