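import Pool.Agent.Q202.IDet2.Eff
import Pool.Agent.Q206.UD.Perm

/-!
# Turing equivalence with a bound for the use
-/

set_option autoImplicit false

namespace Pool.Agent.Q206.UD

open Encodable
open Nat.Partrec (Code)
open Pool.Agent.H685R3 Pool.Agent.Q202.IDet Pool.Agent.Helper227 Pool.Agent.Y588.TC
  Pool.Agent.Q202.IDet2

/-- The program `c` computes `x` from `y` with use at most `n + g n`: for all `n` it gives the
first `n` bits of `x` from `n` and some initial segment of `y` of length at most `n + g n`, and on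
`n` and initial segments of `y` it gives nothing else. -/
def UseLE (g : ℕ → ℕ) (x y : ℕ → Bool) : Prop :=
  ∃ c : Code, (∀ n, ∃ m ≤ n + g n, encode (hist x n) ∈ c.eval (encode (n, hist y m))) ∧
    ∀ n m r, r ∈ c.eval (encode (n, hist y m)) → r = encode (hist x n)

/-- `A` is closed under Turing equivalence with use at most `n + g n`. -/
def UseInvariant (g : ℕ → ℕ) (A : Set (ℕ → Bool)) : Prop :=
  ∀ x y, UseLE g x y → UseLE g y x → x ∈ A → y ∈ A

theorem hist_take (x : ℕ → Bool) {n N : ℕ} (h : n ≤ N) : (hist x N).take n = hist x n := by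
  unfold hist
  rw [← List.map_take, List.take_range, Nat.min_eq_left h]

theorem prim_all {h : ℕ → ℕ} (hh : Primrec h) :
    PrimrecPred fun p : ℕ × List Bool => ∀ i ∈ List.range p.1, h i < p.2.length := by
  have h1 : PrimrecRel fun (i : ℕ) (p : ℕ × List Bool) => h i < p.2.length :=
    Primrec.nat_lt.comp (hh.comp Primrec.fst)
      (Primrec.list_length.comp (Primrec.snd.comp Primrec.snd))
  exact PrimrecRel.comp (PrimrecRel.forall_mem_list h1) (Primrec.list_range.comp Primrec.fst)
    Primrec.id

theorem use_of_perm {g h : ℕ → ℕ} (hh : Primrec h) {N : ℕ}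
    (hb : ∀ n, N ≤ n → ∀ i < n, h i < n + g n) (x : ℕ → Bool) : UseLE g (x ∘ h) x := by
  classical
  let T : List Bool := hist (x ∘ h) N
  let f : ℕ × List Bool → Option ℕ := fun p =>
    if p.1 < N then some (encode (T.take p.1))
    else if ∀ i ∈ List.range p.1, h i < p.2.length then
      some (encode ((List.range p.1).map fun i => p.2.getD (h i) false))
    else none
  have hf : Primrec f := by
    refine Primrec.ite (Primrec.nat_lt.comp Primrec.fst (Primrec.const N))
      (Primrec.option_some.comp (Primrec.encode.comp (Primrec.list_take.comp Primrec.fst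
        (Primrec.const T)))) (Primrec.ite (prim_all hh) ?_ (Primrec.const none))
    refine Primrec.option_some.comp (Primrec.encode.comp
      (Primrec.list_map (Primrec.list_range.comp Primrec.fst) ?_))
    exact (Primrec.list_getD false).comp (Primrec.snd.comp Primrec.fst) (hh.comp Primrec.snd)
  obtain ⟨c, hc⟩ := exists_code_of (α := ℕ × List Bool) (f := fun p => (f p : Part ℕ))
    (Computable.ofOption hf.to_comp)
  have hval : ∀ n m, N ≤ n → (∀ i < n, h i < m) →
      (List.range n).map (fun i => (hist x m).getD (h i) false) = hist (x ∘ h) n := by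
    intro n m _ hm
    refine List.map_congr_left fun i hi => ?_
    exact hist_getD (hm i (List.mem_range.1 hi))
  refine ⟨c, fun n => ?_, fun n m r hr => ?_⟩
  · by_cases hn : n < N
    · refine ⟨0, Nat.zero_le _, ?_⟩
      rw [hc]
      have h1 : f (n, hist x 0) = some (encode (hist (x ∘ h) n)) := by
        simp only [f, if_pos hn]
        rw [show T.take n = hist (x ∘ h) n from hist_take _ hn.le]
      rw [h1]
      exact Part.mem_some _
    · refine ⟨n + g n, le_rfl, ?_⟩
      rw [hc]
      have h1 : f (n, hist x (n + g n)) = some (encode (hist (x ∘ h) n)) := by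
        simp only [f, if_neg hn]
        rw [if_pos, hval n (n + g n) (not_lt.1 hn) (hb n (not_lt.1 hn))]
        intro i hi
        rw [hist_length]
        exact hb n (not_lt.1 hn) i (List.mem_range.1 hi)
      rw [h1]
      exact Part.mem_some _
  · rw [hc] at hr
    have h1 : f (n, hist x m) = some r := by
      rcases hfx : f (n, hist x m) with _ | a
      · rw [hfx] at hr
        exact absurd hr (Part.notMem_none _)
      · rw [hfx] at hr
        rw [Part.mem_some_iff.1 hr]
    by_cases hn : n < N
    · simp only [f, if_pos hn] at h1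
      rw [show T.take n = hist (x ∘ h) n from hist_take _ hn.le] at h1
      exact (Option.some.inj h1).symm
    · simp only [f, if_neg hn] at h1
      split_ifs at h1 with h2
      rw [hval n m (not_lt.1 hn) (fun i hi => by
        have := h2 i (List.mem_range.2 hi)
        rwa [hist_length] at this)] at h1
      exact (Option.some.inj h1).symm

/-- `A` is closed under the rearrangement `h` of the positions and under its inverse. -/
def Cl (A : Set (ℕ → Bool)) (h : ℕ → ℕ) : Prop := ∀ x, x ∘ h ∈ A ↔ x ∈ A

theorem cl_of_bound {g : ℕ → ℕ} {A : Set (ℕ → Bool)} (hA : UseInvariant g A) {h h' : ℕ → ℕ}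
    (hh : Primrec h) (hh' : Primrec h') {N : ℕ} (hb : ∀ n, N ≤ n → ∀ i < n, h i < n + g n)
    (hb' : ∀ n, N ≤ n → ∀ i < n, h' i < n + g n) (hinv : ∀ n, h (h' n) = n) : Cl A h := by
  intro x
  have h1 : UseLE g (x ∘ h) x := use_of_perm hh hb x
  have h2 : UseLE g ((x ∘ h) ∘ h') (x ∘ h) := use_of_perm hh' hb' (x ∘ h)
  have h3 : (x ∘ h) ∘ h' = x := by
    funext n
    simp only [Function.comp_apply, hinv]
  rw [h3] at h2
  exact ⟨fun h' => hA _ _ h1 h2 h', fun h' => hA _ _ h2 h1 h'⟩

theorem bound_of_near {g : ℕ → ℕ} {k N : ℕ} (hg : ∀ n, N ≤ n → n < (k + 1) * g n) {f f' fi : ℕ → ℕ}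
    {C : ℕ} (h : ∀ n, 2 * (k + 1) * f' n ≤ (2 * (k + 1) + 1) * f n + C) (hfi : ∀ n, f (fi n) = n) :
    ∀ n, max N C ≤ n → ∀ i < n, f' (fi i) < n + g n := by
  intro n hn i hi
  have h1 := h (fi i)
  rw [hfi] at h1
  have h2 := hg n (le_trans (le_max_left _ _) hn)
  have h3 : C ≤ n := le_trans (le_max_right _ _) hn
  have h4 : (2 * (k + 1) + 1) * i ≤ (2 * (k + 1) + 1) * n := Nat.mul_le_mul_left _ hi.le
  refine Nat.lt_of_mul_lt_mul_left (a := 2 * (k + 1)) ?_
  calc 2 * (k + 1) * f' (fi i) ≤ (2 * (k + 1) + 1) * n + n := by omega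
    _ = 2 * (k + 1) * n + 2 * n := by ring
    _ < 2 * (k + 1) * n + 2 * ((k + 1) * g n) := by omega
    _ = 2 * (k + 1) * (n + g n) := by ring

/-- `A` is closed under all rearrangements of the positions by permutations which are primitive
recursive together with their inverses and which move every position `n` by at most `n / k + C`,
for some `C`. -/
def SmallInvariant (k : ℕ) (A : Set (ℕ → Bool)) : Prop :=
  ∀ h h' : ℕ → ℕ, Primrec h → Primrec h' → (∀ n, h (h' n) = n) → (∀ n, h' (h n) = n) →
    (∃ C, ∀ n, k * h n ≤ k * n + n + C ∧ k * n ≤ k * h n + n + C) → ∀ x, x ∈ A → x ∘ h ∈ A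

theorem cl_near {k : ℕ} {A : Set (ℕ → Bool)} (hA : SmallInvariant k A)
    {f f' fi fi' : ℕ → ℕ} (hf : Primrec f)
    (hf' : Primrec f') (hfi : Primrec fi) (hfi' : Primrec fi') (h1 : ∀ n, f (fi n) = n)
    (h2 : ∀ n, fi (f n) = n) (h1' : ∀ n, f' (fi' n) = n) (h2' : ∀ n, fi' (f' n) = n)
    (hn : Near (k + 1) f f') (hcl : Cl A f) : Cl A f' := by
  obtain ⟨C, hC⟩ := hn
  have hb : ∀ n, k * f' (fi n) ≤ k * n + n + C ∧ k * n ≤ k * f' (fi n) + n + C := by
    intro n
    obtain ⟨h3, h4⟩ := hC (fi n)
    rw [h1] at h3 h4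
    have h5 : (k + 1) * f' (fi n) = k * f' (fi n) + f' (fi n) := by ring
    have h6 : (k + 1 + 1) * n = k * n + 2 * n := by ring
    have h7 : (k + 1) * n = k * n + n := by ring
    have h8 : (k + 1 + 1) * f' (fi n) = k * f' (fi n) + 2 * f' (fi n) := by ring
    rcases le_total n (f' (fi n)) with h9 | h9 <;> constructor <;> nlinarith
  have hb' : ∀ n, k * f (fi' n) ≤ k * n + n + C ∧ k * n ≤ k * f (fi' n) + n + C := by
    intro n
    obtain ⟨h3, h4⟩ := hC (fi' n)
    rw [h1'] at h3 h4
    rcases le_total n (f (fi' n)) with h9 | h9 <;> constructor <;> nlinarith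
  have h3 : Cl A (f' ∘ fi) := by
    intro x
    constructor
    · intro hx
      have h5 := hA (f ∘ fi') (f' ∘ fi) (hf.comp hfi') (hf'.comp hfi)
        (fun n => by simp only [Function.comp_apply, h2', h1])
        (fun n => by simp only [Function.comp_apply, h2, h1']) ⟨C, hb'⟩ _ hx
      have h6 : (x ∘ (f' ∘ fi)) ∘ (f ∘ fi') = x := by
        funext n
        simp only [Function.comp_apply, h2, h1']
      rwa [h6] at h5
    · intro hx
      exact hA (f' ∘ fi) (f ∘ fi') (hf'.comp hfi) (hf.comp hfi')
        (fun n => by simp only [Function.comp_apply, h2, h1'])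
        (fun n => by simp only [Function.comp_apply, h2', h1]) ⟨C, hb⟩ _ hx
  intro x
  have h4 : x ∘ f' = (x ∘ (f' ∘ fi)) ∘ f := by
    funext n
    simp only [Function.comp_apply, h2]
  rw [h4, hcl, h3]

theorem near_end (k : ℕ) {L : ℕ} (hL : 0 < L) : Near k (psi L (L + L) (2 * L - L)) third := by
  have hs : L + (L + L) + (2 * L - L) = 4 * L := by omega
  have hs2 : 2 * L - L = L := by omega
  refine near_of_le (C := 8 * L) fun n => ?_
  unfold psi third
  rw [hs, hs2]
  split_ifs with h1 h2
  · have := el_close (L := L) (w := L) (o := 0) (d := 4) (r := 2) hL hL (by omega) (by omega)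
      (by ring) (n / 4) (by omega)
    omega
  · have := el_close (L := L) (w := L + L) (o := L) (d := 2) (r := 1) hL (by omega) (by omega)
      (by omega) (by ring) (n / 4) (by omega)
    omega
  · have := el_close (L := L) (w := L) (o := L + (L + L)) (d := 4) (r := 0) hL hL
      (by omega) (by omega) (by ring) (n / 2) (by omega)
    omega

theorem circle_of_small {k : ℕ} {A : Set (ℕ → Bool)} (hA : SmallInvariant k A) :
    CircleInvariant A := by
  have hid : Cl A id := fun x => Iff.rfl
  obtain ⟨L, hLk⟩ : ∃ L, L = k + 1 := ⟨_, rfl⟩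
  have hL : 0 < L := by omega
  have hpsi : ∀ t, t ≤ L → Cl A (psi L (L + t) (2 * L - t)) := by
    intro t
    induction t with
    | zero =>
      intro _
      exact cl_near hA Primrec.id (primrec_psi _ _ _) Primrec.id (primrec_phi _ _ _)
        (fun _ => rfl) (fun _ => rfl) (psi_phi hL) (phi_psi hL (by omega) (by omega))
        (near_start _ hL) hid
    | succ t ih =>
      intro ht
      exact cl_near hA (primrec_psi _ _ _) (primrec_psi _ _ _) (primrec_phi _ _ _)
        (primrec_phi _ _ _) (psi_phi hL) (phi_psi hL (by omega) (by omega)) (psi_phi hL)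
        (phi_psi hL (by omega) (by omega)) (psi_near hL (by omega) (by omega)) (ih (by omega))
  have hthird : Cl A third := cl_near hA (primrec_psi _ _ _) primrec_third
    (primrec_phi _ _ _) (primrec_third.comp primrec_third) (psi_phi hL)
    (phi_psi hL (by omega) (by omega)) third_three third_three (near_end _ hL) (hpsi L le_rfl)
  have hquarter : Cl A quarter := by
    refine cl_near hA (fi := id) (fi' := fun n => quarter (quarter (quarter n))) Primrec.id
      primrec_quarter Primrec.id (primrec_quarter.comp (primrec_quarter.comp primrec_quarter))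
      (fun _ => rfl) (fun _ => rfl) quarter_four quarter_four (near_of_le (C := 3) fun n => ?_) hid
    have := quarter_le n
    have h2 : n ≤ quarter n + 3 := by
      unfold quarter
      split_ifs <;> omega
    simp only [id]
    omega
  exact fun x => ⟨hquarter x, hthird x⟩

theorem small_of_use {g : ℕ → ℕ} {A : Set (ℕ → Bool)} (hA : UseInvariant g A) {k N : ℕ}
    (hg : ∀ n, N ≤ n → n < (k + 1) * g n) : SmallInvariant (2 * (k + 1) + 1) A := by
  rintro h h' hh hh' h1 h2 ⟨C, hC⟩ x hx
  have hb : ∀ n, 2 * (k + 1) * h n ≤ (2 * (k + 1) + 1) * id n + C := by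
    intro n
    have h3 := (hC n).1
    simp only [id]
    rcases le_total n (h n) with h9 | h9
    · have h4 : (2 * (k + 1) + 1) * h n = 2 * (k + 1) * h n + h n := by ring
      have h5 : (2 * (k + 1) + 1) * n = 2 * (k + 1) * n + n := by ring
      omega
    · have h4 := Nat.mul_le_mul_left (2 * (k + 1)) h9
      have h5 : (2 * (k + 1) + 1) * n = 2 * (k + 1) * n + n := by ring
      omega
  have hb' : ∀ n, 2 * (k + 1) * id n ≤ (2 * (k + 1) + 1) * h n + C := by
    intro n
    have h3 := (hC n).2
    have h5 : (2 * (k + 1) + 1) * n = 2 * (k + 1) * n + n := by ring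
    simp only [id]
    omega
  exact (cl_of_bound hA (h := h) (h' := h') hh hh' (N := max N C)
    (fun n hn i hi => bound_of_near (f := id) (f' := h) (fi := id) hg hb (fun _ => rfl) n hn i hi)
    (fun n hn i hi => bound_of_near (f := h) (f' := id) (fi := h') hg hb' h1 n hn i hi)
    h1 x).2 hx

theorem circle_of_use {g : ℕ → ℕ} {A : Set (ℕ → Bool)} (hA : UseInvariant g A) {k N : ℕ}
    (hg : ∀ n, N ≤ n → n < (k + 1) * g n) : CircleInvariant A :=
  circle_of_small (small_of_use hA hg)

end Pool.Agent.Q206.UD
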